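import Pool.Agent.Helper46.Tet.Final

/-!
From tetrahedralizations of a finite point set in Euclidean space to combinatorial families.
-/

set_option autoImplicit false

namespace Pool.Agent.Helper46.Tet

open Set

/-- Euclidean space. -/
abbrev E3 := EuclideanSpace ℝ (Fin 3)

/-- Coordinates as points of Euclidean space. -/
noncomputable def φ : V ≃ₗ[ℝ] E3 := (WithLp.linearEquiv 2 ℝ (Fin 3 → ℝ)).symm

theorem phi_cv {κ : Type*} [Fintype κ] (r : κ → V) :
    φ '' cv r = convexHull ℝ (range fun i => φ (r i)) := by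
  rw [cv_eq_convexHull]
  have h := φ.toLinearMap.image_convexHull (range r)
  rw [← range_comp] at h
  exact h

theorem affInd {r : Fin 4 → V} (h : Dt r ≠ 0) : AffineIndependent ℝ fun i => φ (r i) := by
  rw [affineIndependent_iff_of_fintype]
  intro w hw0 hw
  rw [Finset.weightedVSub_eq_linear_combination _ hw0] at hw
  have h1 : ∑ i, w i • r i = 0 := by
    apply φ.injective
    rw [map_sum, map_zero, ← hw]
    apply Finset.sum_congr rfl
    intro i _
    rw [map_smul]
  have h2 := bary_of_comb h (w := fun _ => (1/4 : ℝ)) (by simp)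
  have h3 := bary_of_comb h (w := fun i => (1/4 : ℝ) + w i) (by
    rw [Finset.sum_add_distrib, hw0]; simp)
  have h4 : ∑ i, ((1/4 : ℝ) + w i) • r i = ∑ i, (1/4 : ℝ) • r i := by
    simp only [add_smul, Finset.sum_add_distrib, h1, add_zero]
  rw [h4, h2] at h3
  intro i
  have := congrFun h3 i
  linarith

variable {ι : Type*} [Fintype ι]

theorem exists_enum [DecidableEq E3] {q : ι → V} {t : Finset E3}
    (ht : t ⊆ Finset.univ.image fun i => φ (q i)) (hc : t.card = 4) :
    ∃ g : Fin 4 → ι, Function.Injective g ∧ (t : Set E3) = range fun j => φ (q (g j)) := by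
  have h1 : ∀ x : t, ∃ i : ι, φ (q i) = x := by
    intro x
    have := ht x.2
    rw [Finset.mem_image] at this
    obtain ⟨i, _, hi⟩ := this
    exact ⟨i, hi⟩
  choose f hf using h1
  set e := t.equivFinOfCardEq hc with he
  refine ⟨fun j => f (e.symm j), ?_, ?_⟩
  · intro a b hab
    have : ((e.symm a : t) : E3) = (e.symm b : t) := by
      rw [← hf, ← hf]
      simp only at hab
      rw [hab]
    exact e.symm.injective (Subtype.ext this)
  · ext x
    constructor
    · intro hx
      refine ⟨e ⟨x, hx⟩, ?_⟩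
      simp only [Equiv.symm_apply_apply]
      rw [hf]
    · rintro ⟨j, rfl⟩
      simp only
      rw [hf]
      exact (e.symm j).2

theorem general_position [DecidableEq E3] {q : ι → V}
    (hg : ∀ t : Fin 4 → ι, Function.Injective t → Dt (q ∘ t) ≠ 0) (S : Finset E3)
    (hS : S ⊆ Finset.univ.image fun i => φ (q i)) (hc : S.card = 4) :
    AffineIndependent ℝ (Subtype.val : ↥(S : Set E3) → E3) := by
  obtain ⟨g, hgi, hr⟩ := exists_enum hS hc
  have h1 := (affInd (hg g hgi)).range
  rw [hr]
  exact h1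

/-- A tetrahedralization of the point set gives a combinatorial family. -/
theorem exists_tri [DecidableEq E3] {q : ι → V}
    (hg : ∀ t : Fin 4 → ι, Function.Injective t → Dt (q ∘ t) ≠ 0)
    (T : Finset (Finset E3))
    (h1 : ∀ t ∈ T, t ⊆ (Finset.univ.image fun i => φ (q i)) ∧ t.card = 4)
    (h2 : (⋃ t ∈ T, convexHull ℝ (t : Set E3)) =
      convexHull ℝ ((Finset.univ.image fun i => φ (q i) : Finset E3) : Set E3))
    (h3 : ∀ t ∈ T, ∀ s ∈ T, convexHull ℝ (t : Set E3) ∩ convexHull ℝ (s : Set E3) =
      convexHull ℝ ((t : Set E3) ∩ (s : Set E3))) :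
    ∃ T' : Finset (Fin 4 → ι), T'.card = T.card ∧ Tri q T' := by
  classical
  have hex : ∀ t : T, ∃ g : Fin 4 → ι, Function.Injective g ∧
      ((t : Finset E3) : Set E3) = range fun j => φ (q (g j)) := by
    intro t
    exact exists_enum (h1 t t.2).1 (h1 t t.2).2
  choose G hGi hGr using hex
  have hGinj : Function.Injective G := by
    intro s t hst
    apply Subtype.ext
    apply Finset.coe_injective
    rw [hGr, hGr, hst]
  refine ⟨Finset.univ.image G, ?_, ⟨?_, ?_, ?_⟩⟩
  · rw [Finset.card_image_of_injective _ hGinj]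
    simp
  · intro t ht
    rw [Finset.mem_image] at ht
    obtain ⟨s, _, rfl⟩ := ht
    exact hg _ (hGi s)
  · intro s' hs' t' ht' hst'
    rw [Finset.mem_image] at hs' ht'
    obtain ⟨s, _, rfl⟩ := hs'
    obtain ⟨t, _, rfl⟩ := ht'
    have hst : s ≠ t := fun h => hst' (by rw [h])
    rw [Set.disjoint_left]
    intro y hys hyt
    -- a vertex of `s` not in `t`
    have hv : ∃ v, φ (q (G s v)) ∉ (t : Finset E3) := by
      by_contra hne
      push Not at hne
      apply hst
      apply Subtype.ext
      apply Finset.eq_of_subset_of_card_le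
      · intro x hx
        have : x ∈ ((s : Finset E3) : Set E3) := hx
        rw [hGr] at this
        obtain ⟨j, rfl⟩ := this
        exact hne j
      · rw [(h1 s s.2).2, (h1 t t.2).2]
    obtain ⟨v, hv⟩ := hv
    have hy1 : φ y ∈ convexHull ℝ ((s : Finset E3) : Set E3) := by
      rw [hGr, ← phi_cv (fun j => q (G s j))]
      exact ⟨y, ocv_subset_cv _ hys, rfl⟩
    have hy2 : φ y ∈ convexHull ℝ ((t : Finset E3) : Set E3) := by
      rw [hGr, ← phi_cv (fun j => q (G t j))]
      exact ⟨y, ocv_subset_cv _ hyt, rfl⟩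
    have hy3 : φ y ∈ convexHull ℝ (((s : Finset E3) : Set E3) ∩ ((t : Finset E3) : Set E3)) := by
      rw [← h3 s s.2 t t.2]
      exact ⟨hy1, hy2⟩
    have hsub : (((s : Finset E3) : Set E3) ∩ ((t : Finset E3) : Set E3)) ⊆
        range fun j => φ (q (fct (G s) v j)) := by
      rintro x ⟨hx1, hx2⟩
      rw [hGr] at hx1
      obtain ⟨j, rfl⟩ := hx1
      have hjv : j ≠ v := by
        rintro rfl
        exact hv hx2
      obtain ⟨i, hi⟩ := Fin.exists_succAbove_eq hjv
      refine ⟨i, ?_⟩
      simp only [fct, Function.comp, hi]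
    have hy4 := convexHull_mono (𝕜 := ℝ) hsub hy3
    rw [← phi_cv (fun j => q (fct (G s) v j))] at hy4
    obtain ⟨z, hz, hzy⟩ := hy4
    have hzy' : z = y := φ.injective hzy
    subst hzy'
    obtain ⟨w, hw0, hw1, hw2⟩ := hz
    obtain ⟨w', hw0', hw1', hw2'⟩ := hys
    have hD := hg _ (hGi s)
    have e1 := bary_of_comb hD hw1'
    have e2 := bary_of_comb hD (w := Fin.insertNth (α := fun _ => ℝ) v 0 w) (by
      rw [Fin.sum_univ_succAbove _ v]
      simp only [Fin.insertNth_apply_same, Fin.insertNth_apply_succAbove, zero_add]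
      exact hw1)
    have e3 : ∑ i, (Fin.insertNth (α := fun _ => ℝ) v 0 w) i • (q ∘ G s) i = z := by
      rw [Fin.sum_univ_succAbove _ v]
      simp only [Fin.insertNth_apply_same, Fin.insertNth_apply_succAbove, zero_smul, zero_add]
      exact hw2
    rw [hw2'] at e1
    rw [e3, e1] at e2
    have e4 := congrFun e2 v
    rw [Fin.insertNth_apply_same] at e4
    have := hw0' v
    rw [e4] at this
    exact lt_irrefl _ this
  · intro y hy
    have hy1 : φ y ∈ convexHull ℝ ((Finset.univ.image fun i => φ (q i) : Finset E3) : Set E3) := by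
      rw [Finset.coe_image, Finset.coe_univ, image_univ, ← phi_cv q]
      exact ⟨y, hy, rfl⟩
    rw [← h2] at hy1
    simp only [mem_iUnion] at hy1 ⊢
    obtain ⟨t, ht, hyt⟩ := hy1
    refine ⟨G ⟨t, ht⟩, Finset.mem_image_of_mem _ (Finset.mem_univ _), ?_⟩
    have hr := hGr ⟨t, ht⟩
    simp only at hr
    rw [hr, ← phi_cv (fun j => q (G ⟨t, ht⟩ j))] at hyt
    obtain ⟨z, hz, hzy⟩ := hyt
    have hzy' : z = y := φ.injective hzy
    subst hzy'
    exact hz

end Pool.Agent.Helper46.Tet
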