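import Mathlib

/-!
Simplices in `ℝ³` in coordinates: determinants, barycentric coordinates, convex hulls of finite
families as images of the standard simplex.
-/

set_option autoImplicit false

namespace Pool.Agent.Helper46.Tet

open Set

/-- `ℝ³` with coordinates. -/
abbrev V := Fin 3 → ℝ

/-- The determinant of three vectors. -/
def D3 (u v w : V) : ℝ :=
  u 0 * (v 1 * w 2 - v 2 * w 1) - u 1 * (v 0 * w 2 - v 2 * w 0) + u 2 * (v 0 * w 1 - v 1 * w 0)

/-- The signed volume (times six) of a tetrahedron. -/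
def Dt (q : Fin 4 → V) : ℝ := D3 (q 1 - q 0) (q 2 - q 0) (q 3 - q 0)

/-- The convex hull of a finite family. -/
def cv {κ : Type*} [Fintype κ] (q : κ → V) : Set V :=
  {y | ∃ w : κ → ℝ, (∀ i, 0 ≤ w i) ∧ ∑ i, w i = 1 ∧ ∑ i, w i • q i = y}

/-- The open simplex. -/
def ocv {κ : Type*} [Fintype κ] (q : κ → V) : Set V :=
  {y | ∃ w : κ → ℝ, (∀ i, 0 < w i) ∧ ∑ i, w i = 1 ∧ ∑ i, w i • q i = y}

theorem cv_eq_image {κ : Type*} [Fintype κ] (q : κ → V) :
    cv q = (fun w : κ → ℝ => ∑ i, w i • q i) '' stdSimplex ℝ κ := by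
  ext y
  constructor
  · rintro ⟨w, h1, h2, h3⟩
    exact ⟨w, ⟨h1, h2⟩, h3⟩
  · rintro ⟨w, ⟨h1, h2⟩, h3⟩
    exact ⟨w, h1, h2, h3⟩

theorem cv_eq_convexHull {κ : Type*} [Fintype κ] (q : κ → V) :
    cv q = convexHull ℝ (range q) := by
  classical
  rw [cv_eq_image]
  have h := convexHull_basis_eq_stdSimplex (R := ℝ) (ι := κ)
  rw [← h]
  have h2 : (fun w : κ → ℝ => ∑ i, w i • q i) = (Fintype.linearCombination ℝ q : (κ → ℝ) →ₗ[ℝ] V) := by
    funext w
    rw [Fintype.linearCombination_apply]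
  rw [h2, LinearMap.image_convexHull]
  congr 1
  rw [← range_comp]
  congr 1
  funext i
  simp [Fintype.linearCombination_apply, Function.comp]

theorem isCompact_cv {κ : Type*} [Fintype κ] (q : κ → V) : IsCompact (cv q) := by
  rw [cv_eq_image]
  apply (isCompact_stdSimplex ℝ κ).image
  fun_prop

theorem isClosed_cv {κ : Type*} [Fintype κ] (q : κ → V) : IsClosed (cv q) :=
  (isCompact_cv q).isClosed

theorem convex_cv {κ : Type*} [Fintype κ] (q : κ → V) : Convex ℝ (cv q) := by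
  rw [cv_eq_convexHull]
  exact convex_convexHull ℝ _

theorem mem_cv_self {κ : Type*} [Fintype κ] (q : κ → V) (i : κ) : q i ∈ cv q := by
  rw [cv_eq_convexHull]
  exact subset_convexHull ℝ _ ⟨i, rfl⟩

theorem ocv_subset_cv {κ : Type*} [Fintype κ] (q : κ → V) : ocv q ⊆ cv q := by
  rintro y ⟨w, h1, h2, h3⟩
  exact ⟨w, fun i => (h1 i).le, h2, h3⟩

/-- The relation `y ∈ cv q` is closed in `(q, y)`. -/
theorem isClosed_mem_cv {κ : Type*} [Fintype κ] :
    IsClosed {x : (κ → V) × V | x.2 ∈ cv x.1} := by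
  have : CompactSpace (stdSimplex ℝ κ) := isCompact_iff_compactSpace.1 (isCompact_stdSimplex ℝ κ)
  have h : {x : (κ → V) × V | x.2 ∈ cv x.1} =
      Prod.snd '' {z : (stdSimplex ℝ κ) × ((κ → V) × V) |
        ∑ i, (z.1 : κ → ℝ) i • z.2.1 i = z.2.2} := by
    ext x
    constructor
    · rintro ⟨w, h1, h2, h3⟩
      exact ⟨(⟨w, h1, h2⟩, x), h3, rfl⟩
    · rintro ⟨⟨w, x'⟩, h3, rfl⟩
      exact ⟨w, w.2.1, w.2.2, h3⟩
  rw [h]
  apply isClosedMap_snd_of_compactSpace
  apply isClosed_eq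
  · apply continuous_finsetSum
    intro i _
    exact ((continuous_apply i).comp (continuous_subtype_val.comp continuous_fst)).smul
      ((continuous_apply i).comp (continuous_fst.comp continuous_snd))
  · exact continuous_snd.comp continuous_snd

/-! ### Barycentric coordinates -/

/-- Barycentric coordinates by Cramer's rule. -/
noncomputable def bary (q : Fin 4 → V) (y : V) : Fin 4 → ℝ :=
  ![D3 (q 1 - y) (q 2 - y) (q 3 - y) / Dt q,
    D3 (y - q 0) (q 2 - q 0) (q 3 - q 0) / Dt q,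
    D3 (q 1 - q 0) (y - q 0) (q 3 - q 0) / Dt q,
    D3 (q 1 - q 0) (q 2 - q 0) (y - q 0) / Dt q]

theorem bary_sum {q : Fin 4 → V} (h : Dt q ≠ 0) (y : V) : ∑ i, bary q y i = 1 := by
  simp only [Fin.sum_univ_four, bary, Matrix.cons_val]
  rw [← add_div, ← add_div, ← add_div, div_eq_one_iff_eq h]
  simp only [Dt, D3, Pi.sub_apply]
  ring

theorem bary_comb {q : Fin 4 → V} (h : Dt q ≠ 0) (y : V) : ∑ i, bary q y i • q i = y := by
  ext j
  simp only [Fin.sum_univ_four, bary, Matrix.cons_val, Pi.add_apply, Pi.smul_apply, smul_eq_mul]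
  rw [div_mul_eq_mul_div, div_mul_eq_mul_div, div_mul_eq_mul_div, div_mul_eq_mul_div,
    ← add_div, ← add_div, ← add_div, div_eq_iff h]
  simp only [Dt, D3, Pi.sub_apply]
  fin_cases j <;> (simp only [Fin.zero_eta, Fin.mk_one, Fin.reduceFinMk]; ring)

theorem bary_of_comb {q : Fin 4 → V} (h : Dt q ≠ 0) {w : Fin 4 → ℝ} (hw : ∑ i, w i = 1) :
    bary q (∑ i, w i • q i) = w := by
  have h0 : w 0 = 1 - w 1 - w 2 - w 3 := by
    rw [Fin.sum_univ_four] at hw; linarith
  funext i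
  fin_cases i <;>
  · simp only [Fin.sum_univ_four, bary, Matrix.cons_val, Fin.zero_eta, Fin.mk_one, Fin.reduceFinMk]
    rw [div_eq_iff h, h0]
    simp only [Dt, D3, Pi.sub_apply, Pi.add_apply, Pi.smul_apply, smul_eq_mul]
    ring

end Pool.Agent.Helper46.Tet
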