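import Pool.Agent.Helper46.Tet.Kbound

/-!
Counting the simplices of a limit of tetrahedralizations.
-/

set_option autoImplicit false

namespace Pool.Agent.Helper46.Tet

open Set

variable {ι : Type*} [Fintype ι]

theorem Lm.card_le {p : ι → V} {T : Finset (Fin 4 → ι)} (h : Lm p T) {t₀ : Fin 4 → ι}
    (h₀ : Dt (p ∘ t₀) ≠ 0) {K : ℕ}
    (hK : ∀ F : Fin 3 → ι, nrm (p ∘ F) ≠ 0 → ∀ S : Finset ι,
      (∀ i ∈ S, fn (p ∘ F) (p i) = 0) → S.card ≤ K) :
    T.card ≤ (1 + 4 * K ^ 4) * (nds p T).card := by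
  classical
  set B : (Fin 4 → ι) × Fin 4 → Finset (Fin 4 → ι) := fun x =>
    Fintype.piFinset fun _ : Fin 4 =>
      Finset.univ.filter fun i => fn (p ∘ fct x.1 x.2) (p i) = 0 with hB
  have hsub : T ⊆ nds p T ∪ (nds p T ×ˢ (Finset.univ : Finset (Fin 4))).biUnion B := by
    intro t ht
    by_cases htd : Dt (p ∘ t) = 0
    · obtain ⟨s, hs, v, hv⟩ := h.plane h₀ ht htd
      apply Finset.mem_union_right
      rw [Finset.mem_biUnion]
      refine ⟨(s, v), Finset.mem_product.2 ⟨hs, Finset.mem_univ _⟩, ?_⟩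
      rw [hB, Fintype.mem_piFinset]
      intro i
      exact Finset.mem_filter.2 ⟨Finset.mem_univ _, hv i⟩
    · exact Finset.mem_union_left _ (mem_nds.2 ⟨ht, htd⟩)
  have hBc : ∀ x ∈ nds p T ×ˢ (Finset.univ : Finset (Fin 4)), (B x).card ≤ K ^ 4 := by
    intro x hx
    have hx' := mem_nds.1 (Finset.mem_product.1 hx).1
    simp only [hB]
    rw [Fintype.card_piFinset_const]
    apply Nat.pow_le_pow_left
    apply hK _ (nrm_fct_ne hx'.2 x.2)
    intro i hi
    exact (Finset.mem_filter.1 hi).2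
  calc T.card ≤ (nds p T ∪ (nds p T ×ˢ (Finset.univ : Finset (Fin 4))).biUnion B).card :=
        Finset.card_le_card hsub
    _ ≤ (nds p T).card + ((nds p T ×ˢ (Finset.univ : Finset (Fin 4))).biUnion B).card :=
        Finset.card_union_le _ _
    _ ≤ (nds p T).card + (nds p T ×ˢ (Finset.univ : Finset (Fin 4))).card * K ^ 4 := by
        gcongr
        exact Finset.card_biUnion_le_card_mul _ _ _ hBc
    _ = (1 + 4 * K ^ 4) * (nds p T).card := by
        rw [Finset.card_product, Finset.card_univ, Fintype.card_fin]; ring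

theorem Inv.card_nds_le {n : ℕ} {X : ι → ℕ → ℤ} {p : ι → V} (h : Inv n X p)
    (T : Finset (Fin 4 → ι)) : (nds p T).card ≤ ∑ t ∈ T, g3 n X t := by
  classical
  calc (nds p T).card = ∑ t ∈ nds p T, 1 := by simp
    _ ≤ ∑ t ∈ nds p T, g3 n X t := by
        apply Finset.sum_le_sum
        intro t ht
        exact Nat.one_le_iff_ne_zero.2 (h.dep3 (mem_nds.1 ht).2)
    _ ≤ ∑ t ∈ T, g3 n X t := by
        apply Finset.sum_le_sum_of_subset
        intro t ht
        exact (mem_nds.1 ht).1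

/-- The configuration obtained after all levels. -/
theorem exists_conf {b k : ℕ} (hb : 0 < b) (hk : 0 < k) {x : ι → Fin 3 → ℕ}
    (hx : Function.Injective x) {M : ℕ} (hM : ∀ i ρ, x i ρ ≤ M) (hMb : M < b ^ k)
    {t₀ : Fin 4 → ι} (h₀ : Dt (p0 x ∘ t₀) ≠ 0) :
    ∃ p : ι → V, Function.Injective p ∧ Dt (p ∘ t₀) ≠ 0 ∧ ∀ T : Finset (Fin 4 → ι), Lm p T →
      T.card ≤ (1 + 4 * ((2 * b) ^ 2) ^ 4) * (109 ^ (3 * (k - 1)) * (27 * M ^ 3)) := by
  obtain ⟨p, hp, hp0, hT⟩ := all_levels hb hx hM h₀ (3 * (k - 1))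
  refine ⟨p, hp.inj, hp0, fun T hLm => ?_⟩
  refine (hLm.card_le hp0 (K := (2 * b) ^ 2) ?_).trans ?_
  · intro F hF S hS
    exact plane_card hb hk hx (fun i ρ => (hM i ρ).trans_lt hMb) hp hF S hS
  · exact Nat.mul_le_mul_left _ ((hp.card_nds_le T).trans (hT T hLm))

end Pool.Agent.Helper46.Tet
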