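import Pool.Agent.Helper46.Tet.Basic

/-!
Volumes of simplices and prisms.
-/

set_option autoImplicit false

namespace Pool.Agent.Helper46.Tet

open Set MeasureTheory

/-- The linear map with given columns. -/
noncomputable def Lc (a b c : V) : V →ₗ[ℝ] V :=
  Matrix.toLin' (Matrix.of fun j i => (![a, b, c] : Fin 3 → V) i j)

theorem Lc_apply (a b c x : V) : Lc a b c x = x 0 • a + x 1 • b + x 2 • c := by
  ext j
  simp only [Lc, Matrix.toLin'_apply, Matrix.mulVec, dotProduct, Fin.sum_univ_three, Matrix.of_apply,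
    Matrix.cons_val, Pi.add_apply, Pi.smul_apply, smul_eq_mul]
  ring

theorem det_Lc (a b c : V) : LinearMap.det (Lc a b c) = D3 a b c := by
  rw [Lc, LinearMap.det_toLin', Matrix.det_fin_three]
  simp only [Matrix.of_apply, Matrix.cons_val, D3]
  ring

theorem vol_affine (g a b c : V) (s : Set V) :
    volume ((fun x => g + Lc a b c x) '' s) = ENNReal.ofReal |D3 a b c| * volume s := by
  have h : (fun x => g + Lc a b c x) '' s = (fun x => g + x) '' (Lc a b c '' s) := by
    rw [image_image]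
  rw [h, image_add_left, measure_preimage_add, Measure.addHaar_image_linearMap, det_Lc]

/-- The standard simplex. -/
noncomputable def sd : Fin 4 → V := ![0, ![1, 0, 0], ![0, 1, 0], ![0, 0, 1]]

theorem cv_eq_affine (q : Fin 4 → V) :
    cv q = (fun x => q 0 + Lc (q 1 - q 0) (q 2 - q 0) (q 3 - q 0) x) '' cv sd := by
  ext y
  constructor
  · rintro ⟨w, h0, h1, rfl⟩
    refine ⟨∑ i, w i • sd i, ⟨w, h0, h1, rfl⟩, ?_⟩
    have hw : w 0 = 1 - w 1 - w 2 - w 3 := by
      rw [Fin.sum_univ_four] at h1; linarith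
    ext j
    simp only [Lc_apply, Fin.sum_univ_four, sd, Matrix.cons_val, Pi.add_apply, Pi.smul_apply,
      Pi.sub_apply, smul_eq_mul, hw, Pi.zero_apply]
    ring
  · rintro ⟨x, ⟨w, h0, h1, rfl⟩, rfl⟩
    refine ⟨w, h0, h1, ?_⟩
    have hw : w 0 = 1 - w 1 - w 2 - w 3 := by
      rw [Fin.sum_univ_four] at h1; linarith
    ext j
    simp only [Lc_apply, Fin.sum_univ_four, sd, Matrix.cons_val, Pi.add_apply, Pi.smul_apply,
      Pi.sub_apply, smul_eq_mul, hw, Pi.zero_apply]
    ring

theorem vol_cv (q : Fin 4 → V) :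
    volume (cv q) = ENNReal.ofReal |Dt q| * volume (cv sd) := by
  rw [cv_eq_affine, vol_affine]; rfl

theorem vol_unit : volume (Icc (0 : V) 1) = 1 := by
  rw [Real.volume_Icc_pi]
  simp

theorem mem_cv_sd {x : V} (h0 : ∀ i, 0 ≤ x i) (h1 : x 0 + x 1 + x 2 ≤ 1) : x ∈ cv sd := by
  refine ⟨![1 - x 0 - x 1 - x 2, x 0, x 1, x 2], ?_, ?_, ?_⟩
  · intro i
    fin_cases i
    · simp only [Fin.zero_eta, Matrix.cons_val_zero]; linarith
    · exact h0 0
    · exact h0 1
    · exact h0 2
  · simp [Fin.sum_univ_four]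
    ring
  · ext j
    fin_cases j <;> simp [Fin.sum_univ_four, sd]

/-- The volume of the standard simplex is at least `1/27`. -/
theorem vol_sd_ge : ENNReal.ofReal (1/27) ≤ volume (cv sd) := by
  have h1 : Icc (0 : V) (fun _ => 1/3) ⊆ cv sd := by
    intro x hx
    apply mem_cv_sd
    · intro i; exact hx.1 i
    · have h0 := hx.2 0
      have h1 := hx.2 1
      have h2 := hx.2 2
      simp only at h0 h1 h2
      linarith
  have h2 : volume (Icc (0 : V) (fun _ => 1/3)) = ENNReal.ofReal (1/27) := by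
    rw [Real.volume_Icc_pi, Fin.prod_univ_three]
    simp only [Pi.zero_apply, sub_zero]
    rw [← ENNReal.ofReal_mul (by norm_num), ← ENNReal.ofReal_mul (by norm_num)]
    norm_num
  rw [← h2]
  exact measure_mono h1

theorem vol_sd_ne_top : volume (cv sd) ≠ ⊤ := (isCompact_cv sd).measure_lt_top.ne

theorem vol_cv_ge (q : Fin 4 → V) : ENNReal.ofReal (|Dt q| / 27) ≤ volume (cv q) := by
  rw [vol_cv, div_eq_mul_one_div, ENNReal.ofReal_mul (abs_nonneg _)]
  exact mul_le_mul_right vol_sd_ge _

theorem vol_cv_degenerate {q : Fin 4 → V} (h : Dt q = 0) : volume (cv q) = 0 := by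
  rw [vol_cv, h]; simp

/-- A degenerate family of three points. -/
theorem vol_cv_tri (F : Fin 3 → V) : volume (cv F) = 0 := by
  have h : cv F ⊆ cv (![F 0, F 1, F 2, F 0] : Fin 4 → V) := by
    rintro y ⟨w, h0, h1, rfl⟩
    refine ⟨![w 0, w 1, w 2, 0], ?_, ?_, ?_⟩
    · intro i; fin_cases i
      · exact h0 0
      · exact h0 1
      · exact h0 2
      · exact le_refl _
    · rw [Fin.sum_univ_three] at h1
      simp [Fin.sum_univ_four, h1]
    · simp [Fin.sum_univ_four, Fin.sum_univ_three]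
  apply measure_mono_null h
  apply vol_cv_degenerate
  simp [Dt, D3]

/-- The prism over a triangle. -/
def prism (F : Fin 3 → V) (e : V) (ε : ℝ) : Set V :=
  {z | ∃ y ∈ cv F, ∃ s : ℝ, 0 ≤ s ∧ s ≤ ε ∧ z = y + s • e}

theorem vol_prism_le (F : Fin 3 → V) (e : V) {ε : ℝ} (hε : 0 < ε) :
    volume (prism F e ε) ≤ ENNReal.ofReal (ε * |D3 (F 1 - F 0) (F 2 - F 0) e|) := by
  have h : prism F e ε ⊆
      (fun x => F 0 + Lc (F 1 - F 0) (F 2 - F 0) (ε • e) x) '' Icc (0 : V) 1 := by
    rintro z ⟨y, ⟨w, h0, h1, rfl⟩, s, hs0, hs1, rfl⟩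
    rw [Fin.sum_univ_three] at h1
    have h00 := h0 0
    have h01 := h0 1
    have h02 := h0 2
    refine ⟨![w 1, w 2, s / ε], ⟨?_, ?_⟩, ?_⟩
    · intro i; fin_cases i
      · exact h0 1
      · exact h0 2
      · exact div_nonneg hs0 hε.le
    · intro i; fin_cases i
      · simp only [Fin.zero_eta, Matrix.cons_val_zero, Pi.one_apply]; linarith
      · simp only [Fin.mk_one, Matrix.cons_val_one, Matrix.cons_val_zero, Pi.one_apply]; linarith
      · simp only [Fin.reduceFinMk, Matrix.cons_val, Pi.one_apply]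
        exact (div_le_one hε).2 hs1
    · have hw : w 0 = 1 - w 1 - w 2 := by linarith
      ext j
      simp only [Lc_apply, Fin.sum_univ_three, Matrix.cons_val, Pi.add_apply, Pi.smul_apply,
        Pi.sub_apply, smul_eq_mul, hw]
      field_simp
      ring
  refine (measure_mono h).trans ?_
  rw [vol_affine, vol_unit, mul_one]
  apply ENNReal.ofReal_le_ofReal
  have : D3 (F 1 - F 0) (F 2 - F 0) (ε • e) = ε * D3 (F 1 - F 0) (F 2 - F 0) e := by
    simp only [D3, Pi.smul_apply, smul_eq_mul]; ring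
  rw [this, abs_mul, abs_of_pos hε]

/-- Zero sets of nonconstant affine functionals are null. -/
theorem vol_plane {n : V} {c : ℝ} (h : n ≠ 0) :
    volume {z : V | n 0 * z 0 + n 1 * z 1 + n 2 * z 2 = c} = 0 := by
  let A : AffineSubspace ℝ V :=
    { carrier := {z : V | n 0 * z 0 + n 1 * z 1 + n 2 * z 2 = c}
      smul_vsub_vadd_mem' := by
        intro r x y z hx hy hz
        simp only [mem_ofPred_eq, vsub_eq_sub, vadd_eq_add, Pi.add_apply, Pi.smul_apply,
          Pi.sub_apply, smul_eq_mul] at *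
        linear_combination r * hx - r * hy + hz }
  have hA : A ≠ ⊤ := by
    intro hA
    have h1 : ∀ z : V, n 0 * z 0 + n 1 * z 1 + n 2 * z 2 = c := by
      intro z
      have : z ∈ A := by rw [hA]; trivial
      exact this
    apply h
    have h0 := h1 0
    have ha := h1 (Pi.single 0 1)
    have hb := h1 (Pi.single 1 1)
    have hc := h1 (Pi.single 2 1)
    simp at h0 ha hb hc
    ext j
    fin_cases j
    · simp; linarith
    · simp; linarith
    · simp; linarith
  exact Measure.addHaar_affineSubspace volume A hA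

end Pool.Agent.Helper46.Tet
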