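import Pool.Agent.Helper46.Tet.Lim
import Pool.Agent.Helper46.Tet.Vol

/-!
In a limit of tetrahedralizations the nondegenerate simplices cover everything, and the degenerate
ones are covered by facets of nondegenerate ones.
-/

set_option autoImplicit false

namespace Pool.Agent.Helper46.Tet

open Set Filter Topology MeasureTheory

theorem poly_ne {P : Polynomial ℝ} (hP : P ≠ 0) : ∀ᶠ τ in 𝓝[>] (0:ℝ), P.eval τ ≠ 0 := by
  have hfin : Set.Finite {x | P.IsRoot x} := Polynomial.finite_setOfPred_isRoot hP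
  have hfin' : Set.Finite ({x | P.IsRoot x} \ {0}) := hfin.subset sdiff_subset
  have h : ({x | P.IsRoot x} \ {0})ᶜ ∈ 𝓝 (0:ℝ) := by
    apply hfin'.isClosed.isOpen_compl.mem_nhds
    simp
  filter_upwards [mem_nhdsWithin_of_mem_nhds h, self_mem_nhdsWithin] with τ h1 h2 h3
  apply h1
  exact ⟨h3, ne_of_gt h2⟩

variable {ι : Type*} [Fintype ι]

theorem cv_comp_subset {κ : Type*} [Fintype κ] (p : ι → V) (t : κ → ι) : cv (p ∘ t) ⊆ cv p := by
  rw [cv_eq_convexHull, cv_eq_convexHull]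
  exact convexHull_mono (range_comp_subset_range _ _)

theorem interior_nonempty {p : ι → V} {t : Fin 4 → ι} (h : Dt (p ∘ t) ≠ 0) :
    (interior (cv p)).Nonempty := by
  have h1 : (∑ i, (1/4 : ℝ) • (p ∘ t) i) ∈ ocv (p ∘ t) :=
    ⟨fun _ => 1/4, fun _ => by norm_num, by simp, rfl⟩
  have h2 := ocv_stable h h1
  rw [nhds_prod_eq] at h2
  have h3 := h2.curry.self_of_nhds
  refine ⟨∑ i, (1/4 : ℝ) • (p ∘ t) i, mem_interior_iff_mem_nhds.2 ?_⟩
  filter_upwards [h3] with y hy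
  exact cv_comp_subset p t (ocv_subset_cv _ hy)

open Classical in
/-- The nondegenerate members of a family. -/
noncomputable def nds (p : ι → V) (T : Finset (Fin 4 → ι)) : Finset (Fin 4 → ι) :=
  T.filter fun t => Dt (p ∘ t) ≠ 0

omit [Fintype ι] in
theorem mem_nds {p : ι → V} {T : Finset (Fin 4 → ι)} {t : Fin 4 → ι} :
    t ∈ nds p T ↔ t ∈ T ∧ Dt (p ∘ t) ≠ 0 := by
  unfold nds; rw [Finset.mem_filter]

theorem Lm.cov_nds {p : ι → V} {T : Finset (Fin 4 → ι)} (h : Lm p T) {t₀ : Fin 4 → ι}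
    (h₀ : Dt (p ∘ t₀) ≠ 0) : cv p ⊆ ⋃ t ∈ nds p T, cv (p ∘ t) := by
  intro y hy
  by_contra hyN
  have hN : IsClosed (⋃ t ∈ nds p T, cv (p ∘ t)) :=
    isClosed_biUnion_finset fun t _ => isClosed_cv _
  have hcl : y ∈ closure (interior (cv p)) := by
    rw [(convex_cv p).closure_interior_eq_closure_of_nonempty_interior (interior_nonempty h₀)]
    exact subset_closure hy
  have hO : (interior (cv p) ∩ (⋃ t ∈ nds p T, cv (p ∘ t))ᶜ).Nonempty := by
    rw [inter_comm]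
    exact mem_closure_iff.1 hcl _ hN.isOpen_compl hyN
  have hOo : IsOpen (interior (cv p) ∩ (⋃ t ∈ nds p T, cv (p ∘ t))ᶜ) :=
    isOpen_interior.inter hN.isOpen_compl
  have hpos := hOo.measure_pos volume hO
  have hsub : interior (cv p) ∩ (⋃ t ∈ nds p T, cv (p ∘ t))ᶜ ⊆
      ⋃ t ∈ T.filter (fun t => Dt (p ∘ t) = 0), cv (p ∘ t) := by
    rintro z ⟨hz1, hz2⟩
    have := h.cov (interior_subset hz1)
    simp only [mem_iUnion] at this ⊢
    obtain ⟨t, ht, hzt⟩ := this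
    refine ⟨t, ?_, hzt⟩
    rw [Finset.mem_filter]
    refine ⟨ht, ?_⟩
    by_contra hne
    apply hz2
    simp only [mem_iUnion]
    exact ⟨t, mem_nds.2 ⟨ht, hne⟩, hzt⟩
  have hzero : volume (⋃ t ∈ T.filter (fun t => Dt (p ∘ t) = 0), cv (p ∘ t)) = 0 := by
    refine measure_iUnion_null fun t => measure_iUnion_null fun ht => ?_
    exact vol_cv_degenerate (Finset.mem_filter.1 ht).2
  have := measure_mono_null hsub hzero
  rw [this] at hpos
  exact lt_irrefl _ hpos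

/-- The facet of a tetrahedron opposite to the vertex `v`. -/
def fct (s : Fin 4 → ι) (v : Fin 4) : Fin 3 → ι := s ∘ v.succAbove

omit [Fintype ι] in
theorem mem_cv_fct {p : ι → V} {s : Fin 4 → ι} {y : V} (hy : y ∈ cv (p ∘ s))
    (hy' : y ∉ ocv (p ∘ s)) : ∃ v, y ∈ cv (p ∘ fct s v) := by
  obtain ⟨w, h0, h1, h2⟩ := hy
  have : ∃ v, w v = 0 := by
    by_contra hne
    push Not at hne
    exact hy' ⟨w, fun i => lt_of_le_of_ne (h0 i) (hne i).symm, h1, h2⟩
  obtain ⟨v, hv⟩ := this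
  refine ⟨v, fun j => w (v.succAbove j), fun j => h0 _, ?_, ?_⟩
  · rw [Fin.sum_univ_succAbove _ v, hv, zero_add] at h1
    exact h1
  · rw [Fin.sum_univ_succAbove _ v, hv, zero_smul, zero_add] at h2
    exact h2

/-- (L3) degenerate simplices are covered by facets of nondegenerate ones. -/
theorem Lm.facet {p : ι → V} {T : Finset (Fin 4 → ι)} (h : Lm p T) {t₀ : Fin 4 → ι}
    (h₀ : Dt (p ∘ t₀) ≠ 0) {t : Fin 4 → ι} (ht : t ∈ T) (htd : Dt (p ∘ t) = 0) {y : V}
    (hy : y ∈ cv (p ∘ t)) : ∃ s ∈ nds p T, ∃ v, y ∈ cv (p ∘ fct s v) := by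
  have h1 := h.cov_nds h₀ (cv_comp_subset p t hy)
  simp only [mem_iUnion] at h1
  obtain ⟨s, hs, hys⟩ := h1
  refine ⟨s, hs, mem_cv_fct hys ?_⟩
  intro hyo
  have hs' := mem_nds.1 hs
  have hst : s ≠ t := by
    rintro rfl
    exact hs'.2 htd
  exact Set.disjoint_left.1 (h.disj hs'.1 ht hst hs'.2) hyo hy

/-- The affine functional vanishing on a triangle. -/
def fn (F : Fin 3 → V) (y : V) : ℝ := D3 (F 1 - F 0) (F 2 - F 0) (y - F 0)

theorem fn_comb {κ : Type*} [Fintype κ] (F : Fin 3 → V) (q : κ → V) {w : κ → ℝ}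
    (hw : ∑ i, w i = 1) : fn F (∑ i, w i • q i) = ∑ i, w i * fn F (q i) := by
  have h : ∀ y : V, fn F y = D3 (F 1 - F 0) (F 2 - F 0) y - D3 (F 1 - F 0) (F 2 - F 0) (F 0) := by
    intro y
    simp only [fn, D3, Pi.sub_apply]; ring
  have hlin : D3 (F 1 - F 0) (F 2 - F 0) (∑ i, w i • q i)
      = ∑ i, w i * D3 (F 1 - F 0) (F 2 - F 0) (q i) := by
    simp only [D3, Finset.sum_apply, Pi.smul_apply, smul_eq_mul, Finset.mul_sum, ← Finset.sum_sub_distrib,
      ← Finset.sum_add_distrib]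
    apply Finset.sum_congr rfl
    intro i _
    ring
  rw [h, hlin]
  simp only [h, mul_sub, Finset.sum_sub_distrib, ← Finset.sum_mul, hw, one_mul]

theorem fn_cv {F : Fin 3 → V} {y : V} (hy : y ∈ cv F) : fn F y = 0 := by
  obtain ⟨w, h0, h1, rfl⟩ := hy
  rw [fn_comb F F h1, Fin.sum_univ_three]
  simp only [fn, D3, Pi.sub_apply]
  ring

/-- A degenerate simplex lies in the plane of a facet of a nondegenerate one. -/
theorem Lm.plane {p : ι → V} {T : Finset (Fin 4 → ι)} (h : Lm p T) {t₀ : Fin 4 → ι}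
    (h₀ : Dt (p ∘ t₀) ≠ 0) {t : Fin 4 → ι} (ht : t ∈ T) (htd : Dt (p ∘ t) = 0) :
    ∃ s ∈ nds p T, ∃ v, ∀ i, fn (p ∘ fct s v) (p (t i)) = 0 := by
  by_contra hne
  push Not at hne
  let P : (Fin 4 → ι) → Fin 4 → Polynomial ℝ := fun s v =>
    ∑ i : Fin 4, Polynomial.monomial (i : ℕ) (fn (p ∘ fct s v) (p (t i)))
  have hP : ∀ s ∈ nds p T, ∀ v, P s v ≠ 0 := by
    intro s hs v hP
    obtain ⟨i, hi⟩ := hne s hs v
    apply hi
    have h1 := congrArg (fun Q => Polynomial.coeff Q (i : ℕ)) hP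
    simp only [P, Polynomial.finsetSum_coeff, Polynomial.coeff_monomial,
      Polynomial.coeff_zero] at h1
    rw [Finset.sum_eq_single i] at h1
    · simpa using h1
    · intro j _ hj
      rw [if_neg]
      intro h2
      exact hj (Fin.ext h2)
    · simp
  have hev : ∀ s ∈ nds p T, ∀ᶠ τ in 𝓝[>] (0:ℝ), ∀ v, (P s v).eval τ ≠ 0 := by
    intro s hs
    rw [eventually_all]
    intro v
    exact poly_ne (hP s hs v)
  obtain ⟨τ, hτ, hτ0⟩ := (((nds p T).eventually_all.2 hev).and self_mem_nhdsWithin).exists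
  have hτ0' : (0:ℝ) < τ := hτ0
  set S : ℝ := ∑ i : Fin 4, τ ^ (i : ℕ) with hS
  have hSpos : 0 < S := Finset.sum_pos (fun i _ => pow_pos hτ0' _) Finset.univ_nonempty
  have hw1 : ∑ i : Fin 4, τ ^ (i : ℕ) / S = 1 := by
    rw [← Finset.sum_div, ← hS, div_self hSpos.ne']
  obtain ⟨s, hs, v, hyv⟩ := h.facet h₀ ht htd
    (⟨fun i => τ ^ (i : ℕ) / S, fun i => (div_pos (pow_pos hτ0' _) hSpos).le, hw1, rfl⟩ :
      (∑ i : Fin 4, (τ ^ (i : ℕ) / S) • (p ∘ t) i) ∈ cv (p ∘ t))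
  have h2 := fn_cv hyv
  rw [fn_comb _ _ hw1] at h2
  apply hτ s hs v
  have h3 : (P s v).eval τ = S * ∑ i : Fin 4, τ ^ (i : ℕ) / S * fn (p ∘ fct s v) ((p ∘ t) i) := by
    simp only [P, Polynomial.eval_finsetSum, Polynomial.eval_monomial, Finset.mul_sum]
    apply Finset.sum_congr rfl
    intro i _
    simp only [Function.comp]
    field_simp
  rw [h3, h2, mul_zero]

end Pool.Agent.Helper46.Tet
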