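import Pool.Agent.Helper46.Tet.Level

/-!
The integer coordinates: three grid coordinates followed by their truncations in base `b`.
-/

set_option autoImplicit false

namespace Pool.Agent.Helper46.Tet

open Set Filter Topology MeasureTheory

variable {ι : Type*}

/-- Three coordinates `x`, followed by the truncations `⌊x_ρ / b^l⌋`. -/
def XX (b : ℕ) (x : ι → Fin 3 → ℕ) (i : ι) (r : ℕ) : ℤ :=
  if r = 0 then x i 0 else if r = 1 then x i 1 else if r = 2 then x i 2 else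
    ((x i ⟨(r - 3) % 3, Nat.mod_lt _ (by norm_num)⟩ / b ^ ((r - 3) / 3 + 1) : ℕ) : ℤ)

theorem XX_low (b : ℕ) (x : ι → Fin 3 → ℕ) (i : ι) (ρ : Fin 3) : XX b x i ρ = x i ρ := by
  fin_cases ρ <;> simp [XX]

theorem XX_high (b : ℕ) (x : ι → Fin 3 → ℕ) (i : ι) (j : ℕ) :
    XX b x i (3 + j) =
      ((x i ⟨j % 3, Nat.mod_lt _ (by norm_num)⟩ / b ^ (j / 3 + 1) : ℕ) : ℤ) := by
  unfold XX
  rw [if_neg (by omega), if_neg (by omega), if_neg (by omega)]
  have h : 3 + j - 3 = j := by omega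
  simp only [h]

/-- The unperturbed positions. -/
def p0 (x : ι → Fin 3 → ℕ) (i : ι) : V := fun ρ => (x i ρ : ℝ)

theorem m2_eq_crs (b : ℕ) (x : ι → Fin 3 → ℕ) (F : Fin 3 → ι) :
    nrm (p0 x ∘ F) = ![(m2 (XX b x) F 1 2 : ℝ), (m2 (XX b x) F 2 0 : ℝ), (m2 (XX b x) F 0 1 : ℝ)] := by
  have e0 : ∀ i, XX b x i 0 = x i 0 := fun i => XX_low b x i 0
  have e1 : ∀ i, XX b x i 1 = x i 1 := fun i => XX_low b x i 1
  have e2 : ∀ i, XX b x i 2 = x i 2 := fun i => XX_low b x i 2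
  ext j
  fin_cases j <;>
  · simp only [nrm, crs, p0, m2, e0, e1, e2, Function.comp, Pi.sub_apply, Fin.zero_eta,
      Fin.mk_one, Fin.reduceFinMk, Matrix.cons_val]
    push_cast
    ring

theorem m3_eq_Dt (b : ℕ) (x : ι → Fin 3 → ℕ) (t : Fin 4 → ι) :
    Dt (p0 x ∘ t) = (m3 (XX b x) t 0 1 2 : ℝ) := by
  have e0 : ∀ i, XX b x i 0 = x i 0 := fun i => XX_low b x i 0
  have e1 : ∀ i, XX b x i 1 = x i 1 := fun i => XX_low b x i 1
  have e2 : ∀ i, XX b x i 2 = x i 2 := fun i => XX_low b x i 2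
  simp only [Dt, D3, p0, m3, e0, e1, e2, Function.comp, Pi.sub_apply]
  push_cast
  ring

theorem m3_low {X : ι → ℕ → ℤ} {t : Fin 4 → ι} {r s u : ℕ} (hr : r < 3) (hs : s < 3)
    (hu : u < 3) : m3 X t r s u = 0 ∨ m3 X t r s u = m3 X t 0 1 2 ∨
      m3 X t r s u = - m3 X t 0 1 2 := by
  interval_cases r <;> interval_cases s <;> interval_cases u <;>
    first
    | exact Or.inr (Or.inl rfl)
    | (left; simp only [m3]; ring1)
    | (right; left; simp only [m3]; ring1)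
    | (right; right; simp only [m3]; ring1)

theorem m2_low {X : ι → ℕ → ℤ} {F : Fin 3 → ι} {r s : ℕ} (hr : r < 3) (hs : s < 3)
    (h12 : m2 X F 1 2 = 0) (h20 : m2 X F 2 0 = 0) (h01 : m2 X F 0 1 = 0) : m2 X F r s = 0 := by
  interval_cases r <;> interval_cases s <;>
    first
    | exact h12
    | exact h20
    | exact h01
    | (simp only [m2] at *; linarith)

theorem inv_zero (b : ℕ) {x : ι → Fin 3 → ℕ} (hx : Function.Injective x) :
    Inv 3 (XX b x) (p0 x) := by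
  refine ⟨⟨fun r j => if (j : ℕ) = r then 1 else 0, fun i => ?_⟩, ?_, ?_, ?_⟩
  · have e0 : XX b x i 0 = x i 0 := XX_low b x i 0
    have e1 : XX b x i 1 = x i 1 := XX_low b x i 1
    have e2 : XX b x i 2 = x i 2 := XX_low b x i 2
    simp only [Finset.sum_range_succ, Finset.sum_range_zero, e0, e1, e2]
    ext j
    fin_cases j <;> simp [p0]
  · intro i j hij
    apply hx
    funext ρ
    have := congrFun hij ρ
    simp only [p0] at this
    exact_mod_cast this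
  · intro F r hr s hs hm h0
    apply hm
    rw [m2_eq_crs b] at h0
    have h1 := congrFun h0 0
    have h2 := congrFun h0 1
    have h3 := congrFun h0 2
    simp only [Matrix.cons_val, Pi.zero_apply] at h1 h2 h3
    exact m2_low hr hs (by exact_mod_cast h1) (by exact_mod_cast h2) (by exact_mod_cast h3)
  · intro t r hr s hs u hu hm h0
    apply hm
    rw [m3_eq_Dt b] at h0
    have h1 : m3 (XX b x) t 0 1 2 = 0 := by exact_mod_cast h0
    rcases m3_low (X := XX b x) (t := t) hr hs hu with h | h | h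
    · exact h
    · rw [h, h1]
    · rw [h, h1, neg_zero]

/-- The total normalized volume at level zero. -/
theorem sum_zero [Fintype ι] (b : ℕ) {x : ι → Fin 3 → ℕ} {M : ℕ} (hM : ∀ i ρ, x i ρ ≤ M)
    {T : Finset (Fin 4 → ι)} (hT : Lm (p0 x) T) :
    ∑ t ∈ T, g3 3 (XX b x) t ≤ 27 * M ^ 3 := by
  have h1 : ∀ t ∈ T, ((g3 3 (XX b x) t : ℕ) : ℝ) ≤ |Dt (p0 x ∘ t)| := by
    intro t _
    rw [m3_eq_Dt b]
    by_cases h0 : m3 (XX b x) t 0 1 2 = 0
    · have : g3 3 (XX b x) t = 0 := by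
        by_contra hne
        obtain ⟨r, hr, s, hs, u, hu, hm⟩ := exists_of_g3_ne_zero hne
        apply hm
        rcases m3_low (X := XX b x) (t := t) hr hs hu with h | h | h
        · exact h
        · rw [h, h0]
        · rw [h, h0, neg_zero]
      rw [this, h0]; simp
    · have h2 : g3 3 (XX b x) t ∣ (m3 (XX b x) t 0 1 2).natAbs := by
        rw [← Int.natCast_dvd]
        exact g3_dvd (by norm_num) (by norm_num) (by norm_num)
      have h3 := Nat.le_of_dvd (Int.natAbs_pos.2 h0) h2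
      have h4 : (((m3 (XX b x) t 0 1 2).natAbs : ℕ) : ℝ) = |(m3 (XX b x) t 0 1 2 : ℝ)| := by
        rw [Nat.cast_natAbs]; simp
      rw [← h4]
      exact_mod_cast h3
  have h2 : volume (⋃ t ∈ T, cv (p0 x ∘ t)) ≤ ENNReal.ofReal ((M : ℝ) ^ 3) := by
    have hsub : (⋃ t ∈ T, cv (p0 x ∘ t)) ⊆ Icc (0 : V) (fun _ => (M : ℝ)) := by
      intro y hy
      simp only [mem_iUnion] at hy
      obtain ⟨t, _, w, h0, h1, rfl⟩ := hy
      constructor
      · intro j
        simp only [Finset.sum_apply, Pi.smul_apply, smul_eq_mul, Pi.zero_apply, p0,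
          Function.comp]
        exact Finset.sum_nonneg fun i _ => mul_nonneg (h0 i) (Nat.cast_nonneg _)
      · intro j
        simp only [Finset.sum_apply, Pi.smul_apply, smul_eq_mul, p0, Function.comp]
        calc ∑ i, w i * (x (t i) j : ℝ) ≤ ∑ i, w i * (M : ℝ) :=
              Finset.sum_le_sum fun i _ => mul_le_mul_of_nonneg_left
                (by exact_mod_cast hM _ _) (h0 i)
          _ = M := by rw [← Finset.sum_mul, h1, one_mul]
    refine (measure_mono hsub).trans ?_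
    rw [Real.volume_Icc_pi, Fin.prod_univ_three]
    simp only [Pi.zero_apply, sub_zero]
    rw [← ENNReal.ofReal_mul (by positivity), ← ENNReal.ofReal_mul (by positivity)]
    apply ENNReal.ofReal_le_ofReal
    apply le_of_eq
    ring
  rw [hT.vol_union (Finset.Subset.refl _)] at h2
  have h3 : ENNReal.ofReal (∑ t ∈ T, |Dt (p0 x ∘ t)| / 27) ≤ ENNReal.ofReal ((M : ℝ) ^ 3) := by
    rw [ENNReal.ofReal_sum_of_nonneg (fun t _ => by positivity)]
    exact (Finset.sum_le_sum fun t _ => vol_cv_ge _).trans h2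
  rw [ENNReal.ofReal_le_ofReal_iff (by positivity)] at h3
  have h4 : ((∑ t ∈ T, g3 3 (XX b x) t : ℕ) : ℝ) ≤ 27 * (M : ℝ) ^ 3 := by
    push_cast
    calc ∑ t ∈ T, (g3 3 (XX b x) t : ℝ) ≤ ∑ t ∈ T, |Dt (p0 x ∘ t)| := Finset.sum_le_sum h1
      _ = 27 * ∑ t ∈ T, |Dt (p0 x ∘ t)| / 27 := by
          rw [← Finset.sum_div]; ring
      _ ≤ _ := by linarith
  exact_mod_cast h4

/-- The fractional parts. -/
noncomputable def bt (b : ℕ) (x : ι → Fin 3 → ℕ) (j : ℕ) (i : ι) : ℝ :=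
  (x i ⟨j % 3, Nat.mod_lt _ (by norm_num)⟩ : ℝ) / (b : ℝ) ^ (j / 3 + 1) - XX b x i (3 + j)

theorem bt_eq {b : ℕ} (hb : 0 < b) (x : ι → Fin 3 → ℕ) (j : ℕ) (i : ι) :
    bt b x j i = ((x i ⟨j % 3, Nat.mod_lt _ (by norm_num)⟩ % b ^ (j / 3 + 1) : ℕ) : ℝ) /
      (b : ℝ) ^ (j / 3 + 1) := by
  have hb' : (0 : ℝ) < (b : ℝ) ^ (j / 3 + 1) := by positivity
  unfold bt
  rw [XX_high]
  set y := x i ⟨j % 3, Nat.mod_lt _ (by norm_num)⟩
  have h := Nat.div_add_mod y (b ^ (j / 3 + 1))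
  have h' : ((b ^ (j / 3 + 1) : ℕ) : ℝ) * ((y / b ^ (j / 3 + 1) : ℕ) : ℝ) +
      ((y % b ^ (j / 3 + 1) : ℕ) : ℝ) = y := by exact_mod_cast h
  rw [Nat.cast_pow] at h'
  rw [eq_div_iff hb'.ne', sub_mul, div_mul_cancel₀ _ hb'.ne', Int.cast_natCast]
  linarith

theorem bt_nonneg {b : ℕ} (hb : 0 < b) (x : ι → Fin 3 → ℕ) (j : ℕ) (i : ι) : 0 ≤ bt b x j i := by
  rw [bt_eq hb]; positivity

theorem bt_lt_one {b : ℕ} (hb : 0 < b) (x : ι → Fin 3 → ℕ) (j : ℕ) (i : ι) : bt b x j i < 1 := by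
  have hb' : (0 : ℝ) < (b : ℝ) ^ (j / 3 + 1) := by positivity
  rw [bt_eq hb, div_lt_one hb']
  exact_mod_cast Nat.mod_lt _ (by positivity)

/-- All levels. -/
theorem all_levels [Fintype ι] {b : ℕ} (hb : 0 < b) {x : ι → Fin 3 → ℕ}
    (hx : Function.Injective x) {M : ℕ} (hM : ∀ i ρ, x i ρ ≤ M) {t₀ : Fin 4 → ι}
    (h₀ : Dt (p0 x ∘ t₀) ≠ 0) (J : ℕ) :
    ∃ p : ι → V, Inv (3 + J) (XX b x) p ∧ Dt (p ∘ t₀) ≠ 0 ∧ ∀ T : Finset (Fin 4 → ι), Lm p T →
      ∑ t ∈ T, g3 (3 + J) (XX b x) t ≤ 109 ^ J * (27 * M ^ 3) := by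
  induction J with
  | zero =>
    refine ⟨p0 x, inv_zero b hx, h₀, fun T hT => ?_⟩
    rw [pow_zero, one_mul]
    exact sum_zero b hM hT
  | succ J ih =>
    obtain ⟨p, hp, hp0, hpT⟩ := ih
    obtain ⟨q, hq, hq0, hqT⟩ := level_step hp (β := bt b x J)
      (L := fun r => if r = J % 3 then 1 / (b : ℝ) ^ (J / 3 + 1) else 0)
      (bt_nonneg hb x J) (fun i => (bt_lt_one hb x J i).le) (by
        intro i
        unfold bt
        congr 1
        rw [Finset.sum_eq_single (J % 3)]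
        · rw [if_pos rfl]
          have h1 : XX b x i (J % 3) = x i ⟨J % 3, Nat.mod_lt _ (by norm_num)⟩ :=
            XX_low b x i ⟨J % 3, Nat.mod_lt _ (by norm_num)⟩
          rw [h1]
          push_cast
          ring
        · intro r _ hr
          rw [if_neg hr, zero_mul]
        · intro h
          exfalso
          apply h
          rw [Finset.mem_range]
          have := Nat.mod_lt J (by norm_num : 3 > 0)
          omega) hp0
    refine ⟨q, hq, hq0, fun T hT => ?_⟩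
    obtain ⟨h1, h2⟩ := hqT T hT
    have h3 := hpT T h1
    calc ∑ t ∈ T, g3 (3 + (J + 1)) (XX b x) t ≤ 109 * ∑ t ∈ T, g3 (3 + J) (XX b x) t := h2
      _ ≤ 109 * (109 ^ J * (27 * M ^ 3)) := Nat.mul_le_mul_left _ h3
      _ = 109 ^ (J + 1) * (27 * M ^ 3) := by ring

end Pool.Agent.Helper46.Tet
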