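import Pool.Agent.Helper46.Tet.Count

/-!
The final perturbation to general position.
-/

set_option autoImplicit false

namespace Pool.Agent.Helper46.Tet

open Set Filter Topology

/-- The moment curve. -/
def mcv (a : ℝ) : V := ![a, a ^ 2, a ^ 3]

theorem Dt_mcv (a : Fin 4 → ℝ) : Dt (fun i => mcv (a i)) =
    (a 1 - a 0) * (a 2 - a 0) * (a 3 - a 0) * (a 2 - a 1) * (a 3 - a 1) * (a 3 - a 2) := by
  simp only [Dt, D3, mcv, Pi.sub_apply, Matrix.cons_val]
  ring

theorem Dt_add (p m : Fin 4 → V) (ε : ℝ) : Dt (fun i => p i + ε • m i) =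
    Dt p + (D3 (m 1 - m 0) (p 2 - p 0) (p 3 - p 0) + D3 (p 1 - p 0) (m 2 - m 0) (p 3 - p 0) +
      D3 (p 1 - p 0) (p 2 - p 0) (m 3 - m 0)) * ε +
    (D3 (p 1 - p 0) (m 2 - m 0) (m 3 - m 0) + D3 (m 1 - m 0) (p 2 - p 0) (m 3 - m 0) +
      D3 (m 1 - m 0) (m 2 - m 0) (p 3 - p 0)) * ε ^ 2 + Dt m * ε ^ 3 := by
  simp only [Dt, D3, Pi.sub_apply, Pi.add_apply, Pi.smul_apply, smul_eq_mul]
  ring

variable {ι : Type*} [Fintype ι]

theorem exists_generic {p : ι → V} (hinj : Function.Injective p) {t₀ : Fin 4 → ι}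
    (h₀ : Dt (p ∘ t₀) ≠ 0) :
    ∃ q : ι → V, Function.Injective q ∧ Dt (q ∘ t₀) ≠ 0 ∧ (∀ t : Fin 4 → ι, Function.Injective t → Dt (q ∘ t) ≠ 0) ∧
      ∀ T : Finset (Fin 4 → ι), Lm q T → Lm p T := by
  classical
  set τ : ι → ℝ := fun i => ((Fintype.equivFin ι i : ℕ) : ℝ) with hτ
  have hτi : Function.Injective τ := by
    intro a b hab
    simp only [hτ] at hab
    exact (Fintype.equivFin ι).injective (Fin.ext (by exact_mod_cast hab))
  set Q : ℝ → ι → V := fun ε i => p i + ε • mcv (τ i) with hQ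
  have hcont : Tendsto Q (𝓝[>] 0) (𝓝 p) := by
    have hc : Continuous Q := by
      apply continuous_pi
      intro i
      simp only [hQ]
      fun_prop
    have h1 := hc.tendsto 0
    have h2 : Q 0 = p := by
      funext i; simp [hQ]
    rw [h2] at h1
    exact h1.mono_left nhdsWithin_le_nhds
  have C2 : ∀ᶠ q in 𝓝 p, Dt (q ∘ t₀) ≠ 0 := by
    have hc : Continuous fun q : ι → V => Dt (q ∘ t₀) := by
      unfold Dt D3
      simp only [Function.comp, Pi.sub_apply]
      fun_prop
    exact hc.continuousAt.eventually_ne h₀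
  have C4 : ∀ᶠ q in 𝓝 p, ∀ T : Finset (Fin 4 → ι), Lm q T → Lm p T := by
    rw [eventually_all]
    intro T
    by_cases hT : Lm p T
    · exact Eventually.of_forall fun q _ => hT
    · have ho : IsOpen {q : ι → V | ¬ Lm q T} := by
        have : {q : ι → V | ¬ Lm q T} = (closure {q | Tri q T})ᶜ := rfl
        rw [this]
        exact isClosed_closure.isOpen_compl
      filter_upwards [ho.mem_nhds hT] with q hq h'
      exact absurd h' hq
  have C3 : ∀ᶠ q in 𝓝 p, Function.Injective q := by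
    have : ∀ᶠ q in 𝓝 p, ∀ x : ι × ι, x.1 ≠ x.2 → q x.1 ≠ q x.2 := by
      rw [eventually_all]
      intro x
      by_cases hx : x.1 = x.2
      · exact Eventually.of_forall fun q h => absurd hx h
      · have hne : p x.1 - p x.2 ≠ 0 := sub_ne_zero.2 (fun h' => hx (hinj h'))
        have hc : Continuous fun q : ι → V => q x.1 - q x.2 :=
          (continuous_apply x.1).sub (continuous_apply x.2)
        filter_upwards [hc.continuousAt.eventually_ne hne] with q hq _ h'
        exact hq (sub_eq_zero.2 h')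
    filter_upwards [this] with q hq a b hab
    by_contra hne
    exact hq (a, b) hne hab
  have C5 : ∀ᶠ ε in 𝓝[>] (0:ℝ), ∀ t : Fin 4 → ι, Function.Injective t → Dt (Q ε ∘ t) ≠ 0 := by
    rw [eventually_all]
    intro t
    by_cases ht : Function.Injective t
    · set c : Fin 4 → ℝ := ![Dt (p ∘ t),
        D3 (mcv (τ (t 1)) - mcv (τ (t 0))) (p (t 2) - p (t 0)) (p (t 3) - p (t 0)) +
          D3 (p (t 1) - p (t 0)) (mcv (τ (t 2)) - mcv (τ (t 0))) (p (t 3) - p (t 0)) +
          D3 (p (t 1) - p (t 0)) (p (t 2) - p (t 0)) (mcv (τ (t 3)) - mcv (τ (t 0))),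
        D3 (p (t 1) - p (t 0)) (mcv (τ (t 2)) - mcv (τ (t 0))) (mcv (τ (t 3)) - mcv (τ (t 0))) +
          D3 (mcv (τ (t 1)) - mcv (τ (t 0))) (p (t 2) - p (t 0)) (mcv (τ (t 3)) - mcv (τ (t 0))) +
          D3 (mcv (τ (t 1)) - mcv (τ (t 0))) (mcv (τ (t 2)) - mcv (τ (t 0))) (p (t 3) - p (t 0)),
        Dt (fun i => mcv (τ (t i)))] with hc
      have hc3 : c 3 ≠ 0 := by
        simp only [hc, Matrix.cons_val]
        rw [Dt_mcv (fun i => τ (t i))]
        have hd : ∀ i j : Fin 4, i ≠ j → τ (t i) - τ (t j) ≠ 0 := by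
          intro i j hij
          rw [sub_ne_zero]
          intro h
          exact hij (ht (hτi h))
        exact mul_ne_zero (mul_ne_zero (mul_ne_zero (mul_ne_zero (mul_ne_zero
          (hd 1 0 (by decide)) (hd 2 0 (by decide))) (hd 3 0 (by decide)))
          (hd 2 1 (by decide))) (hd 3 1 (by decide))) (hd 3 2 (by decide))
      have hP : (Polynomial.C (c 0) + Polynomial.C (c 1) * Polynomial.X +
          Polynomial.C (c 2) * Polynomial.X ^ 2 + Polynomial.C (c 3) * Polynomial.X ^ 3 :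
            Polynomial ℝ) ≠ 0 := by
        intro h0
        have h3 := congrArg (fun Q => Polynomial.coeff Q 3) h0
        simp [Polynomial.coeff_X_pow] at h3
        exact hc3 h3
      filter_upwards [poly_ne hP] with ε hε _ h0
      apply hε
      have h1 := Dt_add (p ∘ t) (fun i => mcv (τ (t i))) ε
      have h2 : (fun i => (p ∘ t) i + ε • mcv (τ (t i))) = Q ε ∘ t := rfl
      rw [h2, h0] at h1
      simp only [Polynomial.eval_add, Polynomial.eval_mul, Polynomial.eval_C, Polynomial.eval_X,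
        Polynomial.eval_pow, hc, Matrix.cons_val]
      simp only [Function.comp_apply] at h1 ⊢
      rw [h1]
    · exact Eventually.of_forall fun q h => absurd h ht
  obtain ⟨ε, ⟨⟨h0, h1⟩, h2⟩, h3⟩ := ((hcont.eventually ((C3.and C2).and C4)).and C5).exists
  exact ⟨Q ε, h0, h1, h3, h2⟩

end Pool.Agent.Helper46.Tet
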