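import Pool.Agent.Helper46.Tet.Digits

/-!
After `3 (k - 1)` levels every plane contains at most `(2 b)²` points.
-/

set_option autoImplicit false

namespace Pool.Agent.Helper46.Tet

open Set Filter Topology MeasureTheory

variable {ι : Type*}

/-- Normalized coordinates. -/
noncomputable def yy (b k : ℕ) (x : ι → Fin 3 → ℕ) (i : ι) (r : ℕ) : ℝ :=
  if h : r < 3 then (x i ⟨r, h⟩ : ℝ) / (b : ℝ) ^ k else bt b x (r - 3) i

theorem yy_low (b k : ℕ) (x : ι → Fin 3 → ℕ) (i : ι) (ρ : Fin 3) :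
    yy b k x i ρ = (x i ρ : ℝ) / (b : ℝ) ^ k := by
  unfold yy
  rw [dif_pos ρ.2]

theorem yy_high (b k : ℕ) (x : ι → Fin 3 → ℕ) (i : ι) (j : ℕ) :
    yy b k x i (3 + j) = bt b x j i := by
  unfold yy
  rw [dif_neg (by omega)]
  congr 1
  omega

theorem yy_nonneg {b k : ℕ} (hb : 0 < b) (x : ι → Fin 3 → ℕ) (i : ι) (r : ℕ) :
    0 ≤ yy b k x i r := by
  unfold yy
  split_ifs with h
  · positivity
  · exact bt_nonneg hb x _ i

theorem yy_lt_one {b k : ℕ} (hb : 0 < b) {x : ι → Fin 3 → ℕ} (hx : ∀ i ρ, x i ρ < b ^ k) (i : ι)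
    (r : ℕ) : yy b k x i r < 1 := by
  unfold yy
  split_ifs with h
  · have hb' : (0 : ℝ) < (b : ℝ) ^ k := by positivity
    rw [div_lt_one hb']
    exact_mod_cast hx i _
  · exact bt_lt_one hb x _ i

/-- The normalized coordinates depend linearly on the integer ones. -/
theorem yy_rel {b k : ℕ} {x : ι → Fin 3 → ℕ} {J : ℕ} {i i0 i1 i2 : ι} {a c : ℝ}
    (h : ∀ r < 3 + J, (XX b x i r : ℝ) - XX b x i0 r =
      a * ((XX b x i1 r : ℝ) - XX b x i0 r) + c * ((XX b x i2 r : ℝ) - XX b x i0 r)) :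
    ∀ r < 3 + J, yy b k x i r - yy b k x i0 r =
      a * (yy b k x i1 r - yy b k x i0 r) + c * (yy b k x i2 r - yy b k x i0 r) := by
  intro r hr
  have hlow : ∀ ρ : Fin 3, (x i ρ : ℝ) - x i0 ρ =
      a * ((x i1 ρ : ℝ) - x i0 ρ) + c * ((x i2 ρ : ℝ) - x i0 ρ) := by
    intro ρ
    have := h ρ (by have := ρ.2; omega)
    rw [XX_low, XX_low, XX_low, XX_low] at this
    push_cast at this
    exact this
  by_cases hr3 : r < 3
  · have e : r = ((⟨r, hr3⟩ : Fin 3) : ℕ) := rfl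
    rw [e, yy_low, yy_low, yy_low, yy_low]
    have := hlow ⟨r, hr3⟩
    linear_combination ((b : ℝ) ^ k)⁻¹ * this
  · obtain ⟨j, rfl⟩ : ∃ j, r = 3 + j := ⟨r - 3, by omega⟩
    rw [yy_high, yy_high, yy_high, yy_high]
    unfold bt
    have h1 := hlow ⟨j % 3, Nat.mod_lt _ (by norm_num)⟩
    have h2 := h (3 + j) hr
    linear_combination ((b : ℝ) ^ (j / 3 + 1))⁻¹ * h1 - h2

theorem XX_of_yy {b k : ℕ} (hb : 0 < b) (x : ι → Fin 3 → ℕ) (r : ℕ) :
    ∃ c d : ℝ, ∃ s : ℕ, s ≤ r ∧ ∀ i, (XX b x i r : ℝ) = c * yy b k x i s + d * yy b k x i r := by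
  have hb' : (b : ℝ) ≠ 0 := by positivity
  by_cases hr3 : r < 3
  · refine ⟨(b : ℝ) ^ k, 0, r, le_refl _, fun i => ?_⟩
    have e : r = ((⟨r, hr3⟩ : Fin 3) : ℕ) := rfl
    rw [e, yy_low, XX_low]
    push_cast
    field_simp
    ring
  · obtain ⟨j, rfl⟩ : ∃ j, r = 3 + j := ⟨r - 3, by omega⟩
    refine ⟨(b : ℝ) ^ k / (b : ℝ) ^ (j / 3 + 1), -1, j % 3, by
      have := Nat.mod_lt j (by norm_num : 3 > 0); omega, fun i => ?_⟩
    have e : yy b k x i (j % 3) = (x i ⟨j % 3, Nat.mod_lt _ (by norm_num)⟩ : ℝ) / (b : ℝ) ^ k :=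
      yy_low b k x i ⟨j % 3, Nat.mod_lt _ (by norm_num)⟩
    rw [yy_high, e]
    unfold bt
    field_simp
    ring

/-- Separation of the normalized coordinates. -/
theorem yy_sep {b k : ℕ} (hb : 0 < b) (hk : 0 < k) {x : ι → Fin 3 → ℕ}
    (hx : Function.Injective x) {i i' : ι} (h : i ≠ i') :
    ∃ r < 3 + 3 * (k - 1), 1 / (b : ℝ) ≤ |yy b k x i r - yy b k x i' r| := by
  have hb' : (0 : ℝ) < b := by positivity
  have hne : ∃ ρ, x i ρ ≠ x i' ρ := by
    by_contra hc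
    push Not at hc
    exact h (hx (funext hc))
  obtain ⟨ρ, hρ⟩ := hne
  set z : ℤ := (x i ρ : ℤ) - x i' ρ with hz
  have hz0 : z ≠ 0 := by
    rw [hz, sub_ne_zero]; exact_mod_cast hρ
  by_cases hdiv : ((b : ℤ) ^ (k - 1)) ∣ z
  · refine ⟨ρ, by have := ρ.2; omega, ?_⟩
    rw [yy_low, yy_low, ← sub_div, abs_div, abs_of_pos (by positivity : (0:ℝ) < (b:ℝ) ^ k),
      div_le_div_iff₀ hb' (by positivity)]
    have h1 : (b : ℤ) ^ (k - 1) ≤ |z| := Int.le_of_dvd (abs_pos.2 hz0) ((dvd_abs _ _).2 hdiv)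
    have h2 : (b : ℝ) ^ (k - 1) ≤ |(x i ρ : ℝ) - x i' ρ| := by
      have : (((b : ℤ) ^ (k - 1) : ℤ) : ℝ) ≤ ((|z| : ℤ) : ℝ) := by exact_mod_cast h1
      rw [hz] at this
      push_cast at this
      exact this
    have h3 : (b : ℝ) ^ k = (b : ℝ) ^ (k - 1) * b := by
      rw [← pow_succ]; congr 1; omega
    rw [h3, one_mul]
    exact mul_le_mul_of_nonneg_right h2 hb'.le
  · have hex : ∃ l, ¬ ((b : ℤ) ^ l ∣ z) := ⟨k - 1, hdiv⟩
    classical
    set l := Nat.find hex with hl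
    have hl1 : ¬ ((b : ℤ) ^ l ∣ z) := Nat.find_spec hex
    have hlk : l ≤ k - 1 := Nat.find_min' hex hdiv
    have hlpos : 0 < l := by
      rcases Nat.eq_zero_or_pos l with h0 | h0
      · exfalso; apply hl1; rw [h0]; simp
      · exact h0
    have hl2 : (b : ℤ) ^ (l - 1) ∣ z := by
      by_contra hc
      have := Nat.find_min' hex hc
      omega
    refine ⟨3 + (3 * (l - 1) + ρ), by have := ρ.2; omega, ?_⟩
    rw [yy_high, yy_high, bt_eq hb, bt_eq hb]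
    have e1 : (3 * (l - 1) + (ρ : ℕ)) / 3 + 1 = l := by have := ρ.2; omega
    have e2 : (⟨(3 * (l - 1) + (ρ : ℕ)) % 3, Nat.mod_lt _ (by norm_num)⟩ : Fin 3) = ρ := by
      apply Fin.ext
      show (3 * (l - 1) + (ρ : ℕ)) % 3 = ρ
      have := ρ.2; omega
    rw [e1, e2, ← sub_div, abs_div, abs_of_pos (by positivity : (0:ℝ) < (b:ℝ) ^ l),
      div_le_div_iff₀ hb' (by positivity)]
    set D : ℤ := ((x i ρ % b ^ l : ℕ) : ℤ) - ((x i' ρ % b ^ l : ℕ) : ℤ) with hD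
    have hzD : z = D + (b : ℤ) ^ l * (((x i ρ / b ^ l : ℕ) : ℤ) - ((x i' ρ / b ^ l : ℕ) : ℤ)) := by
      have h1 : ((b ^ l : ℕ) : ℤ) * ((x i ρ / b ^ l : ℕ) : ℤ) + ((x i ρ % b ^ l : ℕ) : ℤ) = x i ρ := by
        exact_mod_cast Nat.div_add_mod (x i ρ) (b ^ l)
      have h2 : ((b ^ l : ℕ) : ℤ) * ((x i' ρ / b ^ l : ℕ) : ℤ) + ((x i' ρ % b ^ l : ℕ) : ℤ)
          = x i' ρ := by
        exact_mod_cast Nat.div_add_mod (x i' ρ) (b ^ l)
      rw [Nat.cast_pow] at h1 h2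
      rw [hz, hD, ← h1, ← h2]
      ring
    have hD0 : D ≠ 0 := by
      intro h0
      apply hl1
      rw [hzD, h0, zero_add]
      exact dvd_mul_right _ _
    have hDd : (b : ℤ) ^ (l - 1) ∣ D := by
      have h1 : (b : ℤ) ^ (l - 1) ∣
          (b : ℤ) ^ l * (((x i ρ / b ^ l : ℕ) : ℤ) - ((x i' ρ / b ^ l : ℕ) : ℤ)) :=
        Dvd.dvd.mul_right (pow_dvd_pow _ (by omega)) _
      have h2 := dvd_sub hl2 h1
      rw [hzD] at h2
      simpa using h2
    have h1 : (b : ℤ) ^ (l - 1) ≤ |D| := Int.le_of_dvd (abs_pos.2 hD0) ((dvd_abs _ _).2 hDd)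
    have h2 : (b : ℝ) ^ (l - 1) ≤ |((x i ρ % b ^ l : ℕ) : ℝ) - ((x i' ρ % b ^ l : ℕ) : ℝ)| := by
      have : (((b : ℤ) ^ (l - 1) : ℤ) : ℝ) ≤ ((|D| : ℤ) : ℝ) := by exact_mod_cast h1
      rw [hD, Int.cast_abs, Int.cast_sub, Int.cast_natCast, Int.cast_natCast, Int.cast_pow,
        Int.cast_natCast] at this
      exact this
    have h3 : (b : ℝ) ^ l = (b : ℝ) ^ (l - 1) * b := by
      rw [← pow_succ]; congr 1; omega
    rw [h3, one_mul]
    exact mul_le_mul_of_nonneg_right h2 hb'.le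

/-- Planes contain few points. -/
theorem plane_card [Fintype ι] {b k : ℕ} (hb : 0 < b) (hk : 0 < k) {x : ι → Fin 3 → ℕ}
    (hx : Function.Injective x) (hx' : ∀ i ρ, x i ρ < b ^ k) {p : ι → V}
    (h : Inv (3 + 3 * (k - 1)) (XX b x) p) {F : Fin 3 → ι} (hF : nrm (p ∘ F) ≠ 0)
    (S : Finset ι) (hS : ∀ i ∈ S, fn (p ∘ F) (p i) = 0) : S.card ≤ (2 * b) ^ 2 := by
  classical
  set N := 3 + 3 * (k - 1) with hN
  set Y1 : ℕ → ℝ := fun r => yy b k x (F 1) r - yy b k x (F 0) r with hY1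
  set Y2 : ℕ → ℝ := fun r => yy b k x (F 2) r - yy b k x (F 0) r with hY2
  obtain ⟨⟨ρ, σ⟩, hρσ, hmax⟩ := Finset.exists_max_image
    (Finset.range N ×ˢ Finset.range N) (fun z => |Y1 z.1 * Y2 z.2 - Y1 z.2 * Y2 z.1|)
    ⟨(0, 0), by simp [hN]⟩
  simp only [Finset.mem_product, Finset.mem_range] at hρσ
  have hmax' : ∀ r < N, ∀ s < N, |Y1 r * Y2 s - Y1 s * Y2 r| ≤ |Y1 ρ * Y2 σ - Y1 σ * Y2 ρ| := by
    intro r hr s hs
    exact hmax (r, s) (Finset.mem_product.2 ⟨Finset.mem_range.2 hr, Finset.mem_range.2 hs⟩)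
  have hM : Y1 ρ * Y2 σ - Y1 σ * Y2 ρ ≠ 0 := by
    intro h0
    have hz : ∀ r < N, ∀ s < N, Y1 r * Y2 s - Y1 s * Y2 r = 0 := by
      intro r hr s hs
      have := hmax' r hr s hs
      rw [h0, abs_zero] at this
      exact abs_eq_zero.1 (le_antisymm this (abs_nonneg _))
    obtain ⟨r, hr, s, hs, hm⟩ := h.dep2 hF
    apply hm
    obtain ⟨c, d, r', hr', e⟩ := XX_of_yy (k := k) hb x r
    obtain ⟨c', d', s', hs', e'⟩ := XX_of_yy (k := k) hb x s
    have h1 : (XX b x (F 1) r : ℝ) - XX b x (F 0) r = c * Y1 r' + d * Y1 r := by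
      rw [e, e, hY1]; ring
    have h2 : (XX b x (F 2) r : ℝ) - XX b x (F 0) r = c * Y2 r' + d * Y2 r := by
      rw [e, e, hY2]; ring
    have h3 : (XX b x (F 1) s : ℝ) - XX b x (F 0) s = c' * Y1 s' + d' * Y1 s := by
      rw [e', e', hY1]; ring
    have h4 : (XX b x (F 2) s : ℝ) - XX b x (F 0) s = c' * Y2 s' + d' * Y2 s := by
      rw [e', e', hY2]; ring
    have h5 : ((m2 (XX b x) F r s : ℤ) : ℝ) = 0 := by
      simp only [m2]
      push_cast
      rw [h1, h2, h3, h4]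
      linear_combination c * c' * hz r' (by omega) s' (by omega) +
        c * d' * hz r' (by omega) s (by omega) + d * c' * hz r (by omega) s' (by omega) +
        d * d' * hz r (by omega) s (by omega)
    exact_mod_cast h5
  have hb' : (0 : ℝ) < b := by positivity
  have hmaps : ∀ i ∈ S, ((⌊2 * b * yy b k x i ρ⌋₊, ⌊2 * b * yy b k x i σ⌋₊) : ℕ × ℕ) ∈
      Finset.range (2 * b) ×ˢ Finset.range (2 * b) := by
    intro i _
    rw [Finset.mem_product, Finset.mem_range, Finset.mem_range]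
    have hlt : ∀ r, ⌊2 * b * yy b k x i r⌋₊ < 2 * b := by
      intro r
      rw [Nat.floor_lt (mul_nonneg (by positivity) (yy_nonneg hb x i r))]
      have := yy_lt_one hb hx' i r
      push_cast
      nlinarith
    exact ⟨hlt ρ, hlt σ⟩
  have hinj : Set.InjOn (fun i => ((⌊2 * b * yy b k x i ρ⌋₊, ⌊2 * b * yy b k x i σ⌋₊) : ℕ × ℕ))
      (S : Set ι) := by
    intro i hi i' hi' heq
    by_contra hne
    obtain ⟨a, c, hx1, _⟩ := h.coords hF (hS i hi)
    obtain ⟨a', c', hx2, _⟩ := h.coords hF (hS i' hi')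
    have r1 := yy_rel (k := k) hx1
    have r2 := yy_rel (k := k) hx2
    have hΔ : ∀ r < N, yy b k x i r - yy b k x i' r = (a - a') * Y1 r + (c - c') * Y2 r := by
      intro r hr
      have h1 := r1 r hr
      have h2 := r2 r hr
      rw [hY1, hY2]
      linear_combination h1 - h2
    have hsmall : ∀ r, ⌊2 * b * yy b k x i r⌋₊ = ⌊2 * b * yy b k x i' r⌋₊ →
        |yy b k x i r - yy b k x i' r| < 1 / (2 * b) := by
      intro r hr
      have n1 : 0 ≤ 2 * b * yy b k x i r := mul_nonneg (by positivity) (yy_nonneg hb x i r)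
      have n2 : 0 ≤ 2 * b * yy b k x i' r := mul_nonneg (by positivity) (yy_nonneg hb x i' r)
      have f1 := Nat.floor_le n1
      have f2 := Nat.floor_le n2
      have g1 := Nat.lt_floor_add_one (2 * b * yy b k x i r)
      have g2 := Nat.lt_floor_add_one (2 * b * yy b k x i' r)
      rw [hr] at f1 g1
      rw [lt_div_iff₀ (by positivity), ← abs_of_pos (by positivity : (0:ℝ) < 2 * b), ← abs_mul,
        abs_lt]
      constructor <;> linarith
    have sρ := hsmall ρ (congrArg Prod.fst heq)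
    have sσ := hsmall σ (congrArg Prod.snd heq)
    obtain ⟨τ, hτ, hsep⟩ := yy_sep hb hk hx hne
    have hid : (Y1 ρ * Y2 σ - Y1 σ * Y2 ρ) * (yy b k x i τ - yy b k x i' τ) =
        (Y1 τ * Y2 σ - Y1 σ * Y2 τ) * (yy b k x i ρ - yy b k x i' ρ) +
        (Y1 ρ * Y2 τ - Y1 τ * Y2 ρ) * (yy b k x i σ - yy b k x i' σ) := by
      rw [hΔ τ hτ, hΔ ρ hρσ.1, hΔ σ hρσ.2]
      ring
    have hMpos : 0 < |Y1 ρ * Y2 σ - Y1 σ * Y2 ρ| := abs_pos.2 hM
    have hle : |Y1 ρ * Y2 σ - Y1 σ * Y2 ρ| * |yy b k x i τ - yy b k x i' τ| ≤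
        |Y1 ρ * Y2 σ - Y1 σ * Y2 ρ| * (|yy b k x i ρ - yy b k x i' ρ| +
          |yy b k x i σ - yy b k x i' σ|) := by
      rw [← abs_mul, hid, mul_add]
      refine (abs_add_le _ _).trans ?_
      rw [abs_mul, abs_mul]
      exact add_le_add (mul_le_mul_of_nonneg_right (hmax' τ hτ σ hρσ.2) (abs_nonneg _))
        (mul_le_mul_of_nonneg_right (hmax' ρ hρσ.1 τ hτ) (abs_nonneg _))
    have hle' := le_of_mul_le_mul_left hle hMpos
    have : 1 / (2 * (b:ℝ)) + 1 / (2 * b) = 1 / b := by field_simp; norm_num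
    linarith
  have hcard := Finset.card_le_card_of_injOn _ hmaps hinj
  rw [Finset.card_product, Finset.card_range] at hcard
  calc S.card ≤ 2 * b * (2 * b) := hcard
    _ = (2 * b) ^ 2 := by ring

end Pool.Agent.Helper46.Tet
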