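import Pool.Agent.Helper46.Tet.Plane

/-!
Integer minors, their greatest common divisors, and the comparison with the physical determinants
inside a plane.
-/

set_option autoImplicit false

namespace Pool.Agent.Helper46.Tet

open Set Filter Topology MeasureTheory

variable {ι : Type*}

/-- The `2 × 2` minors of a triangle. -/
def m2 (X : ι → ℕ → ℤ) (F : Fin 3 → ι) (r s : ℕ) : ℤ :=
  (X (F 1) r - X (F 0) r) * (X (F 2) s - X (F 0) s) -
    (X (F 1) s - X (F 0) s) * (X (F 2) r - X (F 0) r)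

/-- The `3 × 3` minors of a tetrahedron. -/
def m3 (X : ι → ℕ → ℤ) (t : Fin 4 → ι) (r s u : ℕ) : ℤ :=
  (X (t 1) r - X (t 0) r) * ((X (t 2) s - X (t 0) s) * (X (t 3) u - X (t 0) u) -
      (X (t 2) u - X (t 0) u) * (X (t 3) s - X (t 0) s)) -
    (X (t 1) s - X (t 0) s) * ((X (t 2) r - X (t 0) r) * (X (t 3) u - X (t 0) u) -
      (X (t 2) u - X (t 0) u) * (X (t 3) r - X (t 0) r)) +
    (X (t 1) u - X (t 0) u) * ((X (t 2) r - X (t 0) r) * (X (t 3) s - X (t 0) s) -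
      (X (t 2) s - X (t 0) s) * (X (t 3) r - X (t 0) r))

/-- The greatest common divisor of the `2 × 2` minors in the first `n` coordinates. -/
def g2 (n : ℕ) (X : ι → ℕ → ℤ) (F : Fin 3 → ι) : ℕ :=
  (Finset.range n ×ˢ Finset.range n).gcd fun x => (m2 X F x.1 x.2).natAbs

/-- The greatest common divisor of the `3 × 3` minors in the first `n` coordinates. -/
def g3 (n : ℕ) (X : ι → ℕ → ℤ) (t : Fin 4 → ι) : ℕ :=
  (Finset.range n ×ˢ Finset.range n ×ˢ Finset.range n).gcd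
    fun x => (m3 X t x.1 x.2.1 x.2.2).natAbs

theorem g2_dvd {n : ℕ} {X : ι → ℕ → ℤ} {F : Fin 3 → ι} {r s : ℕ} (hr : r < n) (hs : s < n) :
    (g2 n X F : ℤ) ∣ m2 X F r s := by
  rw [Int.natCast_dvd]
  exact Finset.gcd_dvd (f := fun x : ℕ × ℕ => (m2 X F x.1 x.2).natAbs)
    (Finset.mem_product.2 ⟨Finset.mem_range.2 hr, Finset.mem_range.2 hs⟩ : (r, s) ∈ _)

theorem g3_dvd {n : ℕ} {X : ι → ℕ → ℤ} {t : Fin 4 → ι} {r s u : ℕ} (hr : r < n) (hs : s < n)
    (hu : u < n) : (g3 n X t : ℤ) ∣ m3 X t r s u := by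
  rw [Int.natCast_dvd]
  exact Finset.gcd_dvd (f := fun x : ℕ × ℕ × ℕ => (m3 X t x.1 x.2.1 x.2.2).natAbs)
    (Finset.mem_product.2 ⟨Finset.mem_range.2 hr, Finset.mem_product.2
      ⟨Finset.mem_range.2 hs, Finset.mem_range.2 hu⟩⟩ : (r, s, u) ∈ _)

theorem dvd_g3 {n : ℕ} {X : ι → ℕ → ℤ} {t : Fin 4 → ι} {d : ℕ}
    (h : ∀ r < n, ∀ s < n, ∀ u < n, (d : ℤ) ∣ m3 X t r s u) : d ∣ g3 n X t := by
  apply Finset.dvd_gcd
  rintro ⟨r, s, u⟩ hx
  simp only [Finset.mem_product, Finset.mem_range] at hx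
  rw [← Int.natCast_dvd]
  exact h r hx.1 s hx.2.1 u hx.2.2

theorem dvd_g2 {n : ℕ} {X : ι → ℕ → ℤ} {F : Fin 3 → ι} {d : ℕ}
    (h : ∀ r < n, ∀ s < n, (d : ℤ) ∣ m2 X F r s) : d ∣ g2 n X F := by
  apply Finset.dvd_gcd
  rintro ⟨r, s⟩ hx
  simp only [Finset.mem_product, Finset.mem_range] at hx
  rw [← Int.natCast_dvd]
  exact h r hx.1 s hx.2

theorem g3_succ_dvd (n : ℕ) (X : ι → ℕ → ℤ) (t : Fin 4 → ι) : g3 (n + 1) X t ∣ g3 n X t :=
  dvd_g3 fun _ hr _ hs _ hu => g3_dvd (Nat.lt_succ_of_lt hr) (Nat.lt_succ_of_lt hs)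
    (Nat.lt_succ_of_lt hu)

theorem g3_ne_zero_of {n : ℕ} {X : ι → ℕ → ℤ} {t : Fin 4 → ι} {r s u : ℕ} (hr : r < n)
    (hs : s < n) (hu : u < n) (h : m3 X t r s u ≠ 0) : g3 n X t ≠ 0 := by
  intro h0
  apply h
  have := g3_dvd (X := X) (t := t) hr hs hu
  rw [h0] at this
  simpa using this

theorem g2_ne_zero_of {n : ℕ} {X : ι → ℕ → ℤ} {F : Fin 3 → ι} {r s : ℕ} (hr : r < n)
    (hs : s < n) (h : m2 X F r s ≠ 0) : g2 n X F ≠ 0 := by
  intro h0
  apply h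
  have := g2_dvd (X := X) (F := F) hr hs
  rw [h0] at this
  simpa using this

theorem exists_of_g3_ne_zero {n : ℕ} {X : ι → ℕ → ℤ} {t : Fin 4 → ι} (h : g3 n X t ≠ 0) :
    ∃ r < n, ∃ s < n, ∃ u < n, m3 X t r s u ≠ 0 := by
  by_contra hne
  push Not at hne
  apply h
  apply Nat.eq_zero_of_zero_dvd
  apply dvd_g3
  intro r hr s hs u hu
  rw [hne r hr s hs u hu]
  exact dvd_zero _

/-- The gcd of the minors of a facet divides the gcd of the minors of the tetrahedron. -/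
theorem g2_dvd_g3 (n : ℕ) (X : ι → ℕ → ℤ) (s : Fin 4 → ι) (v : Fin 4) :
    g2 n X (fct s v) ∣ g3 n X s := by
  apply dvd_g3
  intro a ha b hb c hc
  have h1 := g2_dvd (X := X) (F := fct s v) ha hb
  have h2 := g2_dvd (X := X) (F := fct s v) ha hc
  have h3 := g2_dvd (X := X) (F := fct s v) hb hc
  obtain ⟨k1, h1⟩ := h1
  obtain ⟨k2, h2⟩ := h2
  obtain ⟨k3, h3⟩ := h3
  generalize (g2 n X (fct s v) : ℤ) = g at h1 h2 h3 ⊢
  fin_cases v
  · refine ⟨k1 * (X (s 1) c - X (s 0) c) - k2 * (X (s 1) b - X (s 0) b)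
      + k3 * (X (s 1) a - X (s 0) a), ?_⟩
    simp only [m2, m3, fct, Function.comp, Fin.zero_eta, Fin.succAbove_zero] at *
    have e0 : (Fin.succ (0 : Fin 3)) = (1 : Fin 4) := rfl
    have e1 : (Fin.succ (1 : Fin 3)) = (2 : Fin 4) := rfl
    have e2 : (Fin.succ (2 : Fin 3)) = (3 : Fin 4) := rfl
    rw [e0, e1, e2] at h1 h2 h3
    linear_combination (X (s 1) c - X (s 0) c) * h1 - (X (s 1) b - X (s 0) b) * h2
      + (X (s 1) a - X (s 0) a) * h3
  · refine ⟨-(k1 * (X (s 1) c - X (s 0) c) - k2 * (X (s 1) b - X (s 0) b)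
      + k3 * (X (s 1) a - X (s 0) a)) * (-1), ?_⟩
    have e0 : (Fin.succAbove (1 : Fin 4) (0 : Fin 3)) = (0 : Fin 4) := rfl
    have e1 : (Fin.succAbove (1 : Fin 4) (1 : Fin 3)) = (2 : Fin 4) := rfl
    have e2 : (Fin.succAbove (1 : Fin 4) (2 : Fin 3)) = (3 : Fin 4) := rfl
    simp only [m2, m3, fct, Function.comp, Fin.mk_one, e0, e1, e2] at *
    linear_combination (X (s 1) c - X (s 0) c) * h1 - (X (s 1) b - X (s 0) b) * h2
      + (X (s 1) a - X (s 0) a) * h3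
  · refine ⟨-(k1 * (X (s 2) c - X (s 0) c) - k2 * (X (s 2) b - X (s 0) b)
      + k3 * (X (s 2) a - X (s 0) a)), ?_⟩
    have e0 : (Fin.succAbove (2 : Fin 4) (0 : Fin 3)) = (0 : Fin 4) := rfl
    have e1 : (Fin.succAbove (2 : Fin 4) (1 : Fin 3)) = (1 : Fin 4) := rfl
    have e2 : (Fin.succAbove (2 : Fin 4) (2 : Fin 3)) = (3 : Fin 4) := rfl
    simp only [m2, m3, fct, Function.comp, Fin.reduceFinMk, e0, e1, e2] at *
    linear_combination -(X (s 2) c - X (s 0) c) * h1 + (X (s 2) b - X (s 0) b) * h2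
      - (X (s 2) a - X (s 0) a) * h3
  · refine ⟨(k1 * (X (s 3) c - X (s 0) c) - k2 * (X (s 3) b - X (s 0) b)
      + k3 * (X (s 3) a - X (s 0) a)), ?_⟩
    have e0 : (Fin.succAbove (3 : Fin 4) (0 : Fin 3)) = (0 : Fin 4) := rfl
    have e1 : (Fin.succAbove (3 : Fin 4) (1 : Fin 3)) = (1 : Fin 4) := rfl
    have e2 : (Fin.succAbove (3 : Fin 4) (2 : Fin 3)) = (2 : Fin 4) := rfl
    simp only [m2, m3, fct, Function.comp, Fin.reduceFinMk, e0, e1, e2] at *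
    linear_combination (X (s 3) c - X (s 0) c) * h1 - (X (s 3) b - X (s 0) b) * h2
      + (X (s 3) a - X (s 0) a) * h3

/-- Real rescaling of a family of integers rescales the gcd. -/
theorem gcd_scale {α : Type*} (S : Finset α) (f g : α → ℤ) (δ : ℝ)
    (h : ∀ x ∈ S, (g x : ℝ) = δ * f x) :
    ((S.gcd fun x => (g x).natAbs : ℕ) : ℝ) = |δ| * ((S.gcd fun x => (f x).natAbs : ℕ) : ℝ) := by
  by_cases h0 : ∀ x ∈ S, f x = 0
  · have h1 : (S.gcd fun x => (f x).natAbs) = 0 := by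
      rw [Finset.gcd_eq_zero_iff]
      intro x hx; rw [h0 x hx]; rfl
    have h2 : (S.gcd fun x => (g x).natAbs) = 0 := by
      rw [Finset.gcd_eq_zero_iff]
      intro x hx
      have := h x hx
      rw [h0 x hx] at this
      simp at this
      simp [this]
    rw [h1, h2]; simp
  · push Not at h0
    obtain ⟨x₀, hx₀, hf₀⟩ := h0
    have hf₀' : (f x₀ : ℝ) ≠ 0 := by exact_mod_cast hf₀
    have hδ : δ = g x₀ / f x₀ := by
      rw [h x₀ hx₀]; field_simp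
    have hrel : ∀ x ∈ S, (f x₀).natAbs * (g x).natAbs = (g x₀).natAbs * (f x).natAbs := by
      intro x hx
      rw [← Int.natAbs_mul, ← Int.natAbs_mul]
      congr 1
      have : (f x₀ : ℝ) * g x = g x₀ * f x := by
        rw [h x hx, hδ]; field_simp
      exact_mod_cast this
    have h1 : (S.gcd fun x => (f x₀).natAbs * (g x).natAbs) =
        (f x₀).natAbs * S.gcd fun x => (g x).natAbs := by
      rw [Finset.gcd_mul_left]; simp
    have h2 : (S.gcd fun x => (g x₀).natAbs * (f x).natAbs) =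
        (g x₀).natAbs * S.gcd fun x => (f x).natAbs := by
      rw [Finset.gcd_mul_left]; simp
    have h3 : (S.gcd fun x => (f x₀).natAbs * (g x).natAbs) =
        (S.gcd fun x => (g x₀).natAbs * (f x).natAbs) := Finset.gcd_congr rfl hrel
    rw [h1, h2] at h3
    have h4 : ((f x₀).natAbs : ℝ) * ((S.gcd fun x => (g x).natAbs : ℕ) : ℝ) =
        ((g x₀).natAbs : ℝ) * ((S.gcd fun x => (f x).natAbs : ℕ) : ℝ) := by
      exact_mod_cast h3
    have h5 : ((f x₀).natAbs : ℝ) = |(f x₀ : ℝ)| := by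
      rw [Nat.cast_natAbs]; simp
    have h6 : ((g x₀).natAbs : ℝ) = |(g x₀ : ℝ)| := by
      rw [Nat.cast_natAbs]; simp
    rw [h5, h6] at h4
    have h7 : |(f x₀ : ℝ)| ≠ 0 := abs_ne_zero.2 hf₀'
    rw [hδ, abs_div, div_mul_eq_mul_div, eq_div_iff h7]
    linarith

end Pool.Agent.Helper46.Tet
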