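import Pool.Agent.Helper46.Tet.Step

/-!
Existence of one level of the perturbation.
-/

set_option autoImplicit false

namespace Pool.Agent.Helper46.Tet

open Set Filter Topology MeasureTheory

/-- A vector not orthogonal to any of finitely many nonzero vectors. -/
theorem exists_avoid {κ : Type*} [Finite κ] (N : κ → V) (hN : ∀ k, N k ≠ 0) :
    ∃ e : V, ∀ k, N k 0 * e 0 + N k 1 * e 1 + N k 2 * e 2 ≠ 0 := by
  have h : ∀ k, ∀ᶠ τ in 𝓝[>] (0:ℝ),
      (Polynomial.C (N k 0) + Polynomial.C (N k 1) * Polynomial.X +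
        Polynomial.C (N k 2) * Polynomial.X ^ 2 : Polynomial ℝ).eval τ ≠ 0 := by
    intro k
    apply poly_ne
    intro h0
    apply hN k
    have c0 := congrArg (fun Q => Polynomial.coeff Q 0) h0
    have c1 := congrArg (fun Q => Polynomial.coeff Q 1) h0
    have c2 := congrArg (fun Q => Polynomial.coeff Q 2) h0
    simp [Polynomial.coeff_X, Polynomial.coeff_C, Polynomial.coeff_X_pow] at c0 c1 c2
    ext j
    fin_cases j
    · exact c0
    · exact c1
    · exact c2
  obtain ⟨τ, hτ⟩ := (eventually_all.2 h).exists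
  refine ⟨![1, τ, τ ^ 2], fun k => ?_⟩
  have := hτ k
  simp only [Polynomial.eval_add, Polynomial.eval_mul, Polynomial.eval_C, Polynomial.eval_X,
    Polynomial.eval_pow] at this
  simpa using this

theorem exists_perp (u : V) :
    ∃ n : V, n ≠ 0 ∧ n 0 * u 0 + n 1 * u 1 + n 2 * u 2 = 0 := by
  by_cases h0 : u 0 = 0
  · refine ⟨![1, 0, 0], ?_, ?_⟩
    · intro h; have := congrFun h 0; simp at this
    · simp [h0]
  · refine ⟨![-u 1, u 0, 0], ?_, ?_⟩
    · intro h
      have := congrFun h 1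
      simp at this
      exact h0 this
    · simp; ring

theorem crs_ne_of {u e n : V} (hu : u ≠ 0) (hn : n 0 * u 0 + n 1 * u 1 + n 2 * u 2 = 0)
    (he : n 0 * e 0 + n 1 * e 1 + n 2 * e 2 ≠ 0) : crs u e ≠ 0 := by
  intro h
  have h0 := congrFun h 0
  have h1 := congrFun h 1
  have h2 := congrFun h 2
  simp only [crs, Matrix.cons_val, Pi.zero_apply] at h0 h1 h2
  apply hu
  ext j
  fin_cases j
  · apply mul_right_cancel₀ he
    simp only [Fin.zero_eta, Pi.zero_apply, zero_mul]
    linear_combination e 0 * hn - n 2 * h1 + n 1 * h2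
  · apply mul_right_cancel₀ he
    simp only [Fin.mk_one, Pi.zero_apply, zero_mul]
    linear_combination e 1 * hn + n 2 * h0 - n 0 * h2
  · apply mul_right_cancel₀ he
    simp only [Fin.reduceFinMk, Pi.zero_apply, zero_mul]
    linear_combination e 2 * hn - n 1 * h0 + n 0 * h1

section
variable {ι : Type*}

/-- The perturbed positions. -/
def pert (p : ι → V) (β : ι → ℝ) (e : V) (ε : ℝ) : ι → V := fun i => p i + (ε * β i) • e

theorem Inv.fac_step {n : ℕ} {X : ι → ℕ → ℤ} {p : ι → V} (h : Inv n X p) {e : V} {ε : ℝ}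
    {β : ι → ℝ} {L : ℕ → ℝ}
    (hβ : ∀ i, β i = (∑ r ∈ Finset.range n, L r * X i r) - X i n) :
    ∃ w : ℕ → V, ∀ i, pert p β e ε i = ∑ r ∈ Finset.range (n + 1), (X i r : ℝ) • w r := by
  obtain ⟨w, hw⟩ := h.fac
  refine ⟨fun r => if r = n then (-ε) • e else w r + (ε * L r) • e, fun i => ?_⟩
  rw [Finset.sum_range_succ]
  show _ = ∑ r ∈ Finset.range n, (X i r : ℝ) •
    (if r = n then (-ε) • e else w r + (ε * L r) • e) +
    (X i n : ℝ) • (if n = n then (-ε) • e else w n + (ε * L n) • e)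
  rw [if_pos rfl]
  have h1 : ∑ r ∈ Finset.range n, (X i r : ℝ) • (if r = n then (-ε) • e else w r + (ε * L r) • e) =
      p i + (ε * ∑ r ∈ Finset.range n, L r * X i r) • e := by
    rw [hw i, Finset.mul_sum, Finset.sum_smul, ← Finset.sum_add_distrib]
    apply Finset.sum_congr rfl
    intro r hr
    rw [if_neg (Finset.mem_range.1 hr).ne]
    module
  rw [h1]
  simp only [pert, hβ]
  module

theorem Inv.re3_step {n : ℕ} {X : ι → ℕ → ℤ} {p : ι → V} (h : Inv n X p) {e : V} {ε : ℝ}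
    (hε : 0 < ε) {β : ι → ℝ} {L : ℕ → ℝ}
    (hβ : ∀ i, β i = (∑ r ∈ Finset.range n, L r * X i r) - X i n)
    (E2 : ∀ a b, p a ≠ p b → crs (p b - p a) e ≠ 0)
    {F : Fin 3 → ι} (hF : nrm (p ∘ F) = 0) {r s : ℕ} (hr : r < n + 1) (hs : s < n + 1)
    (hm : m2 X F r s ≠ 0) : nrm (pert p β e ε ∘ F) ≠ 0 := by
  have hz : ∀ r < n, ∀ s < n, m2 X F r s = 0 := by
    intro r hr s hs
    by_contra hne
    exact h.re3 F r hr s hs hne hF
  have key : ∃ r < n, m2 X F r n ≠ 0 := by
    by_cases hsn : s = n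
    · subst hsn
      have hrn : r ≠ s := by
        rintro rfl
        apply hm; simp only [m2]; ring
      exact ⟨r, by omega, hm⟩
    · by_cases hrn : r = n
      · subst hrn
        refine ⟨s, by omega, fun h0 => hm ?_⟩
        have : m2 X F r s = - m2 X F s r := by simp only [m2]; ring
        rw [this, h0, neg_zero]
      · exact absurd (hz r (by omega) s (by omega)) hm
  obtain ⟨r, hr, hm⟩ := key
  -- the relation between the two sides
  set μ₁ : ℝ := (X (F 2) r : ℝ) - X (F 0) r with hμ₁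
  set μ₂ : ℝ := -((X (F 1) r : ℝ) - X (F 0) r) with hμ₂
  have hrelX : ∀ s < n, μ₁ * ((X (F 1) s : ℝ) - X (F 0) s) + μ₂ * ((X (F 2) s : ℝ) - X (F 0) s)
      = 0 := by
    intro s hs
    have h2 := hz r hr s hs
    have h3 : (((X (F 1) r - X (F 0) r) * (X (F 2) s - X (F 0) s) -
      (X (F 1) s - X (F 0) s) * (X (F 2) r - X (F 0) r) : ℤ) : ℝ) = 0 := by exact_mod_cast h2
    push_cast at h3
    rw [hμ₁, hμ₂]
    linear_combination -h3
  have hrelp : μ₁ • (p (F 1) - p (F 0)) + μ₂ • (p (F 2) - p (F 0)) = 0 := by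
    have h1 := rel3 h.fac (F 0) (F 1) (F 2) (F 0) μ₁ μ₂ 0 (by
      intro s hs
      have := hrelX s hs
      linear_combination this)
    rwa [zero_smul ℝ (p (F 0) - p (F 0)), add_zero] at h1
  set ζ : ℝ := ε * m2 X F r n with hζ
  have hζ0 : ζ ≠ 0 := mul_ne_zero hε.ne' (by exact_mod_cast hm)
  have hβrel : μ₁ * (β (F 1) - β (F 0)) + μ₂ * (β (F 2) - β (F 0)) = m2 X F r n := by
    have h1 : μ₁ * ((∑ s ∈ Finset.range n, L s * X (F 1) s) - ∑ s ∈ Finset.range n, L s * X (F 0) s)
        + μ₂ * ((∑ s ∈ Finset.range n, L s * X (F 2) s) - ∑ s ∈ Finset.range n, L s * X (F 0) s)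
        = 0 := by
      rw [← Finset.sum_sub_distrib, ← Finset.sum_sub_distrib, Finset.mul_sum, Finset.mul_sum,
        ← Finset.sum_add_distrib]
      apply Finset.sum_eq_zero
      intro s hs
      have := hrelX s (Finset.mem_range.1 hs)
      linear_combination L s * this
    simp only [m2]
    push_cast
    rw [hβ, hβ, hβ]
    rw [hμ₁, hμ₂] at h1 ⊢
    linear_combination h1
  have hrelq : μ₁ • (pert p β e ε (F 1) - pert p β e ε (F 0)) +
      μ₂ • (pert p β e ε (F 2) - pert p β e ε (F 0)) = ζ • e := by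
    have h1 : μ₁ • (pert p β e ε (F 1) - pert p β e ε (F 0)) +
      μ₂ • (pert p β e ε (F 2) - pert p β e ε (F 0)) =
      (μ₁ • (p (F 1) - p (F 0)) + μ₂ • (p (F 2) - p (F 0))) +
      (ε * (μ₁ * (β (F 1) - β (F 0)) + μ₂ * (β (F 2) - β (F 0)))) • e := by
      simp only [pert]; module
    rw [h1, hrelp, hβrel, zero_add]
  have hU : ∀ j, pert p β e ε (F j) - pert p β e ε (F 0) = (p (F j) - p (F 0)) +
      (ε * (β (F j) - β (F 0))) • e := by
    intro j; simp only [pert]; module
  intro h0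
  have h0' : crs (pert p β e ε (F 1) - pert p β e ε (F 0))
      (pert p β e ε (F 2) - pert p β e ε (F 0)) = 0 := h0
  have q0 := congrFun hrelq 0
  have q1 := congrFun hrelq 1
  have q2 := congrFun hrelq 2
  simp only [Pi.add_apply, Pi.smul_apply, smul_eq_mul] at q0 q1 q2
  have c0 := congrFun h0' 0
  have c1 := congrFun h0' 1
  have c2 := congrFun h0' 2
  simp only [crs, Matrix.cons_val, Pi.zero_apply] at c0 c1 c2
  by_cases h1 : X (F 1) r - X (F 0) r = 0
  · -- use the second side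
    have h2 : X (F 2) r - X (F 0) r ≠ 0 := by
      intro h2
      apply hm
      simp only [m2, h1, h2]; ring
    have hne : p (F 0) ≠ p (F 2) := by
      intro h3
      have := h.inj h3
      rw [this] at h2
      simp at h2
    apply E2 _ _ hne
    have hc : crs (pert p β e ε (F 2) - pert p β e ε (F 0)) e = 0 := by
      ext j
      apply mul_left_cancel₀ hζ0
      fin_cases j
      · simp only [crs, Fin.zero_eta, Matrix.cons_val, Pi.zero_apply, mul_zero]
        linear_combination -μ₁ * c0 - (pert p β e ε (F 2) - pert p β e ε (F 0)) 1 * q2 +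
          (pert p β e ε (F 2) - pert p β e ε (F 0)) 2 * q1
      · simp only [crs, Fin.mk_one, Matrix.cons_val, Pi.zero_apply, mul_zero]
        linear_combination -μ₁ * c1 - (pert p β e ε (F 2) - pert p β e ε (F 0)) 2 * q0 +
          (pert p β e ε (F 2) - pert p β e ε (F 0)) 0 * q2
      · simp only [crs, Fin.reduceFinMk, Matrix.cons_val, Pi.zero_apply, mul_zero]
        linear_combination -μ₁ * c2 - (pert p β e ε (F 2) - pert p β e ε (F 0)) 0 * q1 +
          (pert p β e ε (F 2) - pert p β e ε (F 0)) 1 * q0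
    rw [hU 2] at hc
    rw [← hc]
    ext j
    fin_cases j <;>
    · simp only [crs, Fin.zero_eta, Fin.mk_one, Fin.reduceFinMk, Matrix.cons_val, Pi.add_apply,
        Pi.sub_apply, Pi.smul_apply, smul_eq_mul]
      ring
  · have hne : p (F 0) ≠ p (F 1) := by
      intro h3
      have := h.inj h3
      rw [this] at h1
      simp at h1
    apply E2 _ _ hne
    have hc : crs (pert p β e ε (F 1) - pert p β e ε (F 0)) e = 0 := by
      ext j
      apply mul_left_cancel₀ hζ0
      fin_cases j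
      · simp only [crs, Fin.zero_eta, Matrix.cons_val, Pi.zero_apply, mul_zero]
        linear_combination μ₂ * c0 - (pert p β e ε (F 1) - pert p β e ε (F 0)) 1 * q2 +
          (pert p β e ε (F 1) - pert p β e ε (F 0)) 2 * q1
      · simp only [crs, Fin.mk_one, Matrix.cons_val, Pi.zero_apply, mul_zero]
        linear_combination μ₂ * c1 - (pert p β e ε (F 1) - pert p β e ε (F 0)) 2 * q0 +
          (pert p β e ε (F 1) - pert p β e ε (F 0)) 0 * q2
      · simp only [crs, Fin.reduceFinMk, Matrix.cons_val, Pi.zero_apply, mul_zero]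
        linear_combination μ₂ * c2 - (pert p β e ε (F 1) - pert p β e ε (F 0)) 0 * q1 +
          (pert p β e ε (F 1) - pert p β e ε (F 0)) 1 * q0
    rw [hU 1] at hc
    rw [← hc]
    ext j
    fin_cases j <;>
    · simp only [crs, Fin.zero_eta, Fin.mk_one, Fin.reduceFinMk, Matrix.cons_val, Pi.add_apply,
        Pi.sub_apply, Pi.smul_apply, smul_eq_mul]
      ring

theorem Inv.re4_step {n : ℕ} {X : ι → ℕ → ℤ} {p : ι → V} (h : Inv n X p) {e : V} {ε : ℝ}
    (hε : 0 < ε) {β : ι → ℝ} {L : ℕ → ℝ}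
    (hβ : ∀ i, β i = (∑ r ∈ Finset.range n, L r * X i r) - X i n)
    (E1 : ∀ F : Fin 3 → ι, nrm (p ∘ F) ≠ 0 → sl (p ∘ F) e ≠ 0)
    {t : Fin 4 → ι} (ht : Dt (p ∘ t) = 0) (hg : g3 (n + 1) X t ≠ 0) :
    Dt (pert p β e ε ∘ t) ≠ 0 := by
  obtain ⟨v, hv⟩ := exists_facet h ht hg
  have h1 := h.scale3 hv hε (q := pert p β e ε) (fun i => rfl) hβ (t := t)
    (fun j => fn_fct_all ht v j)
  intro h0
  rw [h0, abs_zero, zero_mul] at h1
  have h2 : 0 < ε * |sl (p ∘ fct t v) e| * (g3 (n + 1) X t : ℝ) :=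
    mul_pos (mul_pos hε (abs_pos.2 (E1 _ hv))) (by exact_mod_cast Nat.pos_of_ne_zero hg)
  linarith

end

variable {ι : Type*} [Fintype ι]

/-- One level. -/
theorem level_step {n : ℕ} {X : ι → ℕ → ℤ} {p : ι → V} (h : Inv n X p)
    {β : ι → ℝ} {L : ℕ → ℝ} (hβ0 : ∀ i, 0 ≤ β i) (hβ1 : ∀ i, β i ≤ 1)
    (hβ : ∀ i, β i = (∑ r ∈ Finset.range n, L r * X i r) - X i n)
    {t₀ : Fin 4 → ι} (h₀ : Dt (p ∘ t₀) ≠ 0) :
    ∃ q : ι → V, Inv (n + 1) X q ∧ Dt (q ∘ t₀) ≠ 0 ∧ ∀ T : Finset (Fin 4 → ι), Lm q T → Lm p T ∧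
      ∑ t ∈ T, g3 (n + 1) X t ≤ 109 * ∑ t ∈ T, g3 n X t := by
  classical
  -- the direction
  have hperp : ∀ x : {x : ι × ι // p x.1 ≠ p x.2}, ∃ n : V, n ≠ 0 ∧
      n 0 * (p x.1.2 - p x.1.1) 0 + n 1 * (p x.1.2 - p x.1.1) 1 +
        n 2 * (p x.1.2 - p x.1.1) 2 = 0 := by
    intro x
    exact exists_perp _
  choose np hnp0 hnp using hperp
  obtain ⟨e, he⟩ := exists_avoid
    (κ := {F : Fin 3 → ι // nrm (p ∘ F) ≠ 0} ⊕ {x : ι × ι // p x.1 ≠ p x.2})
    (Sum.elim (fun F => nrm (p ∘ F.1)) np) (by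
      rintro (F | x)
      · exact F.2
      · exact hnp0 x)
  have E1 : ∀ F : Fin 3 → ι, nrm (p ∘ F) ≠ 0 → sl (p ∘ F) e ≠ 0 := by
    intro F hF
    have := he (Sum.inl ⟨F, hF⟩)
    rw [sl, D3_eq]
    exact this
  have E2 : ∀ a b, p a ≠ p b → crs (p b - p a) e ≠ 0 := by
    intro a b hab
    have := he (Sum.inr ⟨(a, b), hab⟩)
    exact crs_ne_of (sub_ne_zero.2 (Ne.symm hab)) (hnp ⟨(a, b), hab⟩) this
  -- the open conditions
  have C1 : ∀ᶠ q in 𝓝 p, ∀ F : Fin 3 → ι, nrm (p ∘ F) ≠ 0 → nrm (q ∘ F) ≠ 0 := by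
    rw [eventually_all]
    intro F
    by_cases hF : nrm (p ∘ F) = 0
    · exact Eventually.of_forall fun q h => absurd hF h
    · have hc : Continuous fun q : ι → V => nrm (q ∘ F) := by
        unfold nrm crs
        apply continuous_pi
        intro j
        fin_cases j <;>
        · simp only [Fin.zero_eta, Fin.mk_one, Fin.reduceFinMk, Matrix.cons_val, Function.comp,
            Pi.sub_apply]
          fun_prop
      filter_upwards [hc.continuousAt.eventually_ne hF] with q hq _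
      exact hq
  have C2 : ∀ᶠ q in 𝓝 p, ∀ t : Fin 4 → ι, Dt (p ∘ t) ≠ 0 → Dt (q ∘ t) ≠ 0 := by
    rw [eventually_all]
    intro t
    by_cases ht : Dt (p ∘ t) = 0
    · exact Eventually.of_forall fun q h => absurd ht h
    · have hc : Continuous fun q : ι → V => Dt (q ∘ t) := by
        unfold Dt D3
        simp only [Function.comp, Pi.sub_apply]
        fun_prop
      filter_upwards [hc.continuousAt.eventually_ne ht] with q hq _
      exact hq
  have C3 : ∀ᶠ q in 𝓝 p, Function.Injective q := by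
    have : ∀ᶠ q in 𝓝 p, ∀ x : ι × ι, x.1 ≠ x.2 → q x.1 ≠ q x.2 := by
      rw [eventually_all]
      intro x
      by_cases hx : x.1 = x.2
      · exact Eventually.of_forall fun q h => absurd hx h
      · have hne : p x.1 - p x.2 ≠ 0 := sub_ne_zero.2 (fun h' => hx (h.inj h'))
        have hc : Continuous fun q : ι → V => q x.1 - q x.2 :=
          (continuous_apply x.1).sub (continuous_apply x.2)
        filter_upwards [hc.continuousAt.eventually_ne hne] with q hq _ h'
        exact hq (sub_eq_zero.2 h')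
    filter_upwards [this] with q hq a b hab
    by_contra hne
    exact hq (a, b) hne hab
  have C4 : ∀ᶠ q in 𝓝 p, ∀ T : Finset (Fin 4 → ι), Lm q T → Lm p T := by
    rw [eventually_all]
    intro T
    by_cases hT : Lm p T
    · exact Eventually.of_forall fun q _ => hT
    · have ho : IsOpen {q : ι → V | ¬ Lm q T} := by
        have : {q : ι → V | ¬ Lm q T} = (closure {q | Tri q T})ᶜ := rfl
        rw [this]
        exact isClosed_closure.isOpen_compl
      filter_upwards [ho.mem_nhds hT] with q hq h'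
      exact absurd h' hq
  have hcont : Tendsto (fun ε : ℝ => pert p β e ε) (𝓝[>] 0) (𝓝 p) := by
    have hc : Continuous fun ε : ℝ => pert p β e ε := by
      apply continuous_pi
      intro i
      unfold pert
      fun_prop
    have h1 := hc.tendsto 0
    have h2 : pert p β e 0 = p := by
      funext i; simp [pert]
    rw [h2] at h1
    exact h1.mono_left nhdsWithin_le_nhds
  obtain ⟨ε, ⟨⟨⟨h1, h2⟩, h3⟩, h4⟩, hε⟩ :=
    ((hcont.eventually ((((C1.and C2).and C3).and C4))).and self_mem_nhdsWithin).exists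
  have hε' : 0 < ε := hε
  refine ⟨pert p β e ε, ⟨h.fac_step hβ, h3, ?_, ?_⟩, h2 t₀ h₀, ?_⟩
  · intro F r hr s hs hm
    by_cases hF : nrm (p ∘ F) = 0
    · exact h.re3_step hε' hβ E2 hF hr hs hm
    · exact h1 F hF
  · intro t r hr s hs u hu hm
    by_cases ht : Dt (p ∘ t) = 0
    · exact h.re4_step hε' hβ E1 ht (g3_ne_zero_of hr hs hu hm)
    · exact h2 t ht
  · intro T hT
    refine ⟨h4 T hT, ?_⟩
    exact step_sum h hε' hβ0 hβ1 (fun i => rfl) hβ (h4 T hT) hT h₀ E1

end Pool.Agent.Helper46.Tet
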