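import Pool.Agent.Helper46.Tet.Basic

/-!
Combinatorial families of tetrahedra that are limits of tetrahedralizations.
-/

set_option autoImplicit false

namespace Pool.Agent.Helper46.Tet

open Set Filter Topology

variable {ι : Type*} [Fintype ι]

/-- `T` is a tetrahedralization of the point configuration `q`: the tetrahedra are
nondegenerate, have disjoint interiors and cover the convex hull. -/
structure Tri (q : ι → V) (T : Finset (Fin 4 → ι)) : Prop where
  nd : ∀ t ∈ T, Dt (q ∘ t) ≠ 0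
  disj : ∀ s ∈ T, ∀ t ∈ T, s ≠ t → Disjoint (ocv (q ∘ s)) (ocv (q ∘ t))
  cov : cv q ⊆ ⋃ t ∈ T, cv (q ∘ t)

/-- `T` is a tetrahedralization of configurations arbitrarily close to `p`. -/
def Lm (p : ι → V) (T : Finset (Fin 4 → ι)) : Prop := p ∈ closure {q | Tri q T}

theorem Tri.lm {q : ι → V} {T : Finset (Fin 4 → ι)} (h : Tri q T) : Lm q T :=
  subset_closure h

/-- (L1) covering passes to the limit. -/
theorem Lm.cov {p : ι → V} {T : Finset (Fin 4 → ι)} (h : Lm p T) :
    cv p ⊆ ⋃ t ∈ T, cv (p ∘ t) := by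
  rintro y ⟨w, hw0, hw1, rfl⟩
  have hcl : IsClosed {q : ι → V | ∃ t ∈ T, (∑ i, w i • q i) ∈ cv (q ∘ t)} := by
    have : {q : ι → V | ∃ t ∈ T, (∑ i, w i • q i) ∈ cv (q ∘ t)}
        = ⋃ t ∈ T, {q : ι → V | (∑ i, w i • q i) ∈ cv (q ∘ t)} := by
      ext q; simp
    rw [this]
    apply isClosed_biUnion_finset
    intro t _
    have h2 : {q : ι → V | (∑ i, w i • q i) ∈ cv (q ∘ t)}
        = (fun q : ι → V => ((q ∘ t, ∑ i, w i • q i) : (Fin 4 → V) × V)) ⁻¹'
          {x : (Fin 4 → V) × V | x.2 ∈ cv x.1} := rfl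
    rw [h2]
    apply isClosed_mem_cv.preimage
    apply Continuous.prodMk
    · apply continuous_pi
      intro i
      exact continuous_apply (t i)
    · apply continuous_finsetSum
      intro i _
      exact (continuous_apply i).const_smul (w i)
  have hsub : {q : ι → V | Tri q T} ⊆ {q : ι → V | ∃ t ∈ T, (∑ i, w i • q i) ∈ cv (q ∘ t)} := by
    intro q hq
    have := hq.cov ⟨w, hw0, hw1, rfl⟩
    simpa using this
  have := closure_minimal hsub hcl h
  simpa using this

/-- Stability of the open simplex. -/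
theorem ocv_stable {p : Fin 4 → V} (hp : Dt p ≠ 0) {y : V} (hy : y ∈ ocv p) :
    ∀ᶠ x : (Fin 4 → V) × V in 𝓝 (p, y), x.2 ∈ ocv x.1 := by
  obtain ⟨w, hw0, hw1, rfl⟩ := hy
  have hb := bary_of_comb hp hw1
  have hD : Continuous fun x : (Fin 4 → V) × V => Dt x.1 := by
    unfold Dt D3
    fun_prop
  have h0 : ∀ᶠ x : (Fin 4 → V) × V in 𝓝 (p, ∑ i, w i • p i), Dt x.1 ≠ 0 :=
    hD.continuousAt.eventually_ne hp
  have hi : ∀ i, ∀ᶠ x : (Fin 4 → V) × V in 𝓝 (p, ∑ i, w i • p i), 0 < bary x.1 x.2 i := by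
    intro i
    have hc : ContinuousAt (fun x : (Fin 4 → V) × V => bary x.1 x.2 i) (p, ∑ i, w i • p i) := by
      unfold bary
      fin_cases i <;>
      · simp only [Fin.zero_eta, Fin.mk_one, Fin.reduceFinMk, Matrix.cons_val]
        apply ContinuousAt.div _ hD.continuousAt hp
        unfold D3
        fun_prop
    have : 0 < bary p (∑ i, w i • p i) i := by rw [hb]; exact hw0 i
    exact hc.eventually (lt_mem_nhds this)
  filter_upwards [h0, eventually_all.2 hi] with x hx0 hxi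
  exact ⟨bary x.1 x.2, hxi, bary_sum hx0 x.2, bary_comb hx0 x.2⟩

/-- (L2) an open nondegenerate simplex does not meet any other closed simplex. -/
theorem Lm.disj {p : ι → V} {T : Finset (Fin 4 → ι)} (h : Lm p T) {s t : Fin 4 → ι}
    (hs : s ∈ T) (ht : t ∈ T) (hst : s ≠ t) (hd : Dt (p ∘ s) ≠ 0) :
    Disjoint (ocv (p ∘ s)) (cv (p ∘ t)) := by
  rw [Set.disjoint_left]
  rintro y hy ⟨w, hw0, hw1, hwy⟩
  have h1 := ocv_stable hd hy
  -- perturbed weights
  have hcont : ContinuousAt (fun x : (ι → V) × ℝ =>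
      ((x.1 ∘ s, ∑ i, ((1 - x.2) * w i + x.2 * (1/4)) • x.1 (t i)) : (Fin 4 → V) × V))
      (p, 0) := by
    apply ContinuousAt.prodMk
    · have : Continuous fun x : (ι → V) × ℝ => x.1 ∘ s := by
        apply continuous_pi
        intro i
        exact (continuous_apply (s i)).comp continuous_fst
      exact this.continuousAt
    · have : Continuous fun x : (ι → V) × ℝ =>
          ∑ i, ((1 - x.2) * w i + x.2 * (1/4)) • x.1 (t i) := by
        apply continuous_finsetSum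
        intro i _
        have h1 : Continuous fun x : (ι → V) × ℝ => (1 - x.2) * w i + x.2 * (1/4) := by fun_prop
        exact h1.smul ((continuous_apply (t i)).comp continuous_fst)
      exact this.continuousAt
  have hval : (((p, (0:ℝ)) : (ι → V) × ℝ).1 ∘ s,
      ∑ i, ((1 - ((p, (0:ℝ)) : (ι → V) × ℝ).2) * w i + ((p, (0:ℝ)) : (ι → V) × ℝ).2 * (1/4)) •
        ((p, (0:ℝ)) : (ι → V) × ℝ).1 (t i)) = (p ∘ s, y) := by
    simp only [sub_zero, one_mul, zero_mul, add_zero]
    rw [← hwy]; rfl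
  have h2 : ∀ᶠ x : (ι → V) × ℝ in 𝓝 (p, (0:ℝ)),
      (∑ i, ((1 - x.2) * w i + x.2 * (1/4)) • x.1 (t i)) ∈ ocv (x.1 ∘ s) := by
    have := hcont.tendsto
    rw [hval] at this
    exact this.eventually h1
  rw [nhds_prod_eq] at h2
  obtain ⟨pa, hpa, pb, hpb, hab⟩ := Filter.eventually_prod_iff.1 h2
  have hfreq : ∃ᶠ q in 𝓝 p, Tri q T := mem_closure_iff_frequently.1 h
  obtain ⟨q, hq, hqa⟩ := (hfreq.and_eventually hpa).exists
  have hpb' : ∀ᶠ x in 𝓝[>] (0:ℝ), pb x := hpb.filter_mono nhdsWithin_le_nhds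
  have hlt : ∀ᶠ x in 𝓝[>] (0:ℝ), x < 1 ∧ 0 < x := by
    have h3 : ∀ᶠ x in 𝓝[>] (0:ℝ), x < 1 :=
      (gt_mem_nhds (by norm_num : (0:ℝ) < 1)).filter_mono nhdsWithin_le_nhds
    exact h3.and self_mem_nhdsWithin
  obtain ⟨δ, hδ, hδ1, hδ0⟩ := (hpb'.and hlt).exists
  have hmem := hab hqa hδ
  have hdis := hq.disj s hs t ht hst
  rw [Set.disjoint_left] at hdis
  apply hdis hmem
  refine ⟨fun i => (1 - δ) * w i + δ * (1/4), ?_, ?_, rfl⟩
  · intro i
    have := hw0 i
    have h4 : 0 ≤ (1 - δ) * w i := mul_nonneg (by linarith) this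
    linarith [mul_pos hδ0 (by norm_num : (0:ℝ) < 1/4)]
  · rw [Finset.sum_add_distrib, ← Finset.mul_sum, hw1]
    simp
    ring

end Pool.Agent.Helper46.Tet
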