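import Pool.Agent.Helper46.Tet.Convert

/-!
Choice of the parameters.
-/

set_option autoImplicit false

namespace Pool.Agent.Helper46.Tet

open Set

/-- `n` distinct lattice points of the cube, four of them affinely independent. -/
theorem exists_points {n M : ℕ} (hM : 1 ≤ M) (h4 : 4 ≤ n) (hn : n ≤ (M + 1) ^ 3) :
    ∃ A : Finset (Fin 3 → ℕ), A.card = n ∧ (∀ a ∈ A, ∀ ρ, a ρ ≤ M) ∧
      ∃ t₀ : Fin 4 → A, Dt (p0 (fun a : A => (a : Fin 3 → ℕ)) ∘ t₀) ≠ 0 := by
  classical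
  set B : Finset (Fin 3 → ℕ) := Fintype.piFinset fun _ : Fin 3 => Finset.range (M + 1) with hB
  set s : Finset (Fin 3 → ℕ) := {![0, 0, 0], ![1, 0, 0], ![0, 1, 0], ![0, 0, 1]} with hs
  have hsB : s ⊆ B := by
    intro a ha
    simp only [hs, Finset.mem_insert, Finset.mem_singleton] at ha
    rw [hB, Fintype.mem_piFinset]
    intro ρ
    rw [Finset.mem_range]
    rcases ha with rfl | rfl | rfl | rfl <;> fin_cases ρ <;> simp <;> omega
  have hsc : s.card ≤ n := Finset.card_le_four.trans h4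
  have hBc : n ≤ B.card := by
    rw [hB, Fintype.card_piFinset_const, Finset.card_range]
    exact hn
  obtain ⟨A, hsA, hAB, hA⟩ := Finset.exists_subsuperset_card_eq hsB hsc hBc
  refine ⟨A, hA, ?_, ?_⟩
  · intro a ha ρ
    have := hAB ha
    rw [hB, Fintype.mem_piFinset] at this
    have := this ρ
    rw [Finset.mem_range] at this
    omega
  · refine ⟨![⟨![0, 0, 0], hsA (by simp [hs])⟩, ⟨![1, 0, 0], hsA (by simp [hs])⟩,
      ⟨![0, 1, 0], hsA (by simp [hs])⟩, ⟨![0, 0, 1], hsA (by simp [hs])⟩], ?_⟩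
    simp [Dt, D3, p0]

theorem final_ineq {n M k c : ℕ} (hn : 4 ≤ n) (hMn : M ^ 3 ≤ n) (hk : 1 ≤ k)
    (hkM : 2 ^ ((k - 1) * (k - 1)) ≤ M)
    (hc : c ≤ (1 + 4 * ((2 * 2 ^ k) ^ 2) ^ 4) * (109 ^ (3 * (k - 1)) * (27 * M ^ 3))) :
    (c : ℝ) ≤ n * Real.exp (53 * Real.sqrt (Real.log n)) := by
  obtain ⟨j, rfl⟩ : ∃ j, k = j + 1 := ⟨k - 1, by omega⟩
  simp only [Nat.add_sub_cancel] at hkM hc
  have hn0 : (0:ℝ) < n := by exact_mod_cast (by omega : 0 < n)
  have h1 : c ≤ 2 ^ (24 + 29 * j) * n := by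
    refine hc.trans ?_
    have e1 : 1 + 4 * ((2 * 2 ^ (j + 1)) ^ 2) ^ 4 ≤ 5 * (2 ^ (16 + 8 * j)) := by
      have : ((2 * 2 ^ (j + 1)) ^ 2) ^ 4 = 2 ^ (16 + 8 * j) := by ring
      rw [this]
      have : 1 ≤ 2 ^ (16 + 8 * j) := Nat.one_le_two_pow
      omega
    have e2 : 109 ^ (3 * j) ≤ 2 ^ (21 * j) := by
      rw [pow_mul, pow_mul]
      exact Nat.pow_le_pow_left (by norm_num) j
    calc (1 + 4 * ((2 * 2 ^ (j + 1)) ^ 2) ^ 4) * (109 ^ (3 * j) * (27 * M ^ 3))
        ≤ (5 * (2 ^ (16 + 8 * j))) * (2 ^ (21 * j) * (27 * n)) := by gcongr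
      _ = 135 * 2 ^ (16 + 29 * j) * n := by ring
      _ ≤ 2 ^ 8 * 2 ^ (16 + 29 * j) * n := by gcongr; norm_num
      _ = 2 ^ (24 + 29 * j) * n := by ring
  have hlog : 1 ≤ Real.log n := by
    rw [Real.le_log_iff_exp_le hn0]
    have := Real.exp_one_lt_three
    have h4 : (4:ℝ) ≤ n := by exact_mod_cast hn
    linarith
  have hsq1 : 1 ≤ Real.sqrt (Real.log n) := by
    rw [Real.one_le_sqrt]; exact hlog
  have hl2 : Real.log 2 ≤ 1 := by
    have := Real.log_two_lt_d9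
    linarith
  have hl20 : 0 < Real.log 2 := Real.log_pos (by norm_num)
  have hjn : (j : ℝ) * Real.log 2 ≤ Real.sqrt (Real.log n) := by
    apply Real.le_sqrt_of_sq_le
    have hpow : (2:ℝ) ^ (j * j) ≤ n := by
      have h5 : 2 ^ (j * j) ≤ n := by
        have hM1 : 1 ≤ M := Nat.one_le_two_pow.trans hkM
        calc 2 ^ (j * j) ≤ M := hkM
          _ ≤ M ^ 3 := Nat.le_self_pow (by norm_num) M
          _ ≤ n := hMn
      exact_mod_cast h5
    have h6 : ((j * j : ℕ) : ℝ) * Real.log 2 ≤ Real.log n := by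
      rw [← Real.log_pow]
      exact Real.log_le_log (by positivity) hpow
    push_cast at h6
    calc ((j : ℝ) * Real.log 2) ^ 2 = (j * j * Real.log 2) * Real.log 2 := by ring
      _ ≤ (j * j * Real.log 2) * 1 := by
          apply mul_le_mul_of_nonneg_left hl2
          positivity
      _ ≤ Real.log n := by rw [mul_one]; exact h6
  calc (c : ℝ) ≤ (2 ^ (24 + 29 * j) * n : ℝ) := by exact_mod_cast h1
    _ = n * Real.exp (Real.log 2 * (24 + 29 * j)) := by
        rw [mul_comm, ← Real.rpow_natCast, Real.rpow_def_of_pos (by norm_num)]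
        push_cast; rfl
    _ ≤ n * Real.exp (53 * Real.sqrt (Real.log n)) := by
        apply mul_le_mul_of_nonneg_left _ hn0.le
        apply Real.exp_le_exp.2
        nlinarith

/-- The main theorem. -/
theorem main (n : ℕ) (h4 : 4 ≤ n) : ∃ P : Finset E3, P.card = n ∧
    (∀ S : Finset E3, S ⊆ P → S.card = 4 →
      AffineIndependent ℝ (Subtype.val : ↥(S : Set E3) → E3)) ∧
    ∀ T : Finset (Finset E3), (∀ t ∈ T, t ⊆ P ∧ t.card = 4) →
      (⋃ t ∈ T, convexHull ℝ (t : Set E3)) = convexHull ℝ (P : Set E3) →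
      (∀ t ∈ T, ∀ s ∈ T, convexHull ℝ (t : Set E3) ∩ convexHull ℝ (s : Set E3) =
        convexHull ℝ ((t : Set E3) ∩ (s : Set E3))) →
      (T.card : ℝ) ≤ n * Real.exp (53 * Real.sqrt (Real.log n)) := by
  classical
  -- the side of the cube
  have hex : ∃ m, n ≤ m ^ 3 := ⟨n, Nat.le_self_pow (by norm_num) n⟩
  have hm := Nat.find_spec hex
  set m := Nat.find hex with hmdef
  have hm2 : 2 ≤ m := by
    by_contra hlt
    have hm1 : m ≤ 1 := by omega
    have : m ^ 3 ≤ 1 ^ 3 := Nat.pow_le_pow_left hm1 3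
    omega
  obtain ⟨M, hMm⟩ : ∃ M, m = M + 1 := ⟨m - 1, by omega⟩
  have hM1 : 1 ≤ M := by omega
  have hMn : M ^ 3 ≤ n := by
    by_contra hlt
    push Not at hlt
    exact Nat.find_min hex (m := M) (by omega) hlt.le
  rw [hMm] at hm
  -- the number of levels
  have hexk : ∃ k, M < 2 ^ (k * k) := ⟨M, by
    calc M < 2 ^ M := Nat.lt_two_pow_self
      _ ≤ 2 ^ (M * M) := Nat.pow_le_pow_right (by norm_num) (Nat.le_mul_self M)⟩
  have hk := Nat.find_spec hexk
  set k := Nat.find hexk with hkdef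
  have hk1 : 1 ≤ k := by
    by_contra hlt
    have : k = 0 := by omega
    rw [this] at hk
    simp at hk
    omega
  have hkM : 2 ^ ((k - 1) * (k - 1)) ≤ M := by
    by_contra hlt
    push Not at hlt
    exact Nat.find_min hexk (m := k - 1) (by omega) hlt
  obtain ⟨A, hAc, hAM, t₀, ht₀⟩ := exists_points hM1 h4 hm
  obtain ⟨p, hpi, hp0, hpT⟩ := exists_conf (ι := A) (b := 2 ^ k) (k := k) (by positivity) hk1
    (x := fun a : A => (a : Fin 3 → ℕ)) Subtype.val_injective (M := M)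
    (fun a ρ => hAM a a.2 ρ) (by rw [← pow_mul]; exact hk) ht₀
  obtain ⟨q, hqi, hq0, hqg, hqT⟩ := exists_generic hpi hp0
  refine ⟨Finset.univ.image fun i => φ (q i), ?_, ?_, ?_⟩
  · have hinj : Function.Injective fun i => φ (q i) := φ.injective.comp hqi
    rw [Finset.card_image_of_injective _ hinj, Finset.card_univ, Fintype.card_coe, hAc]
  · exact fun S hS hc => general_position hqg S hS hc
  · intro T h1 h2 h3
    obtain ⟨T', hT'c, hT'⟩ := exists_tri hqg T h1 h2 h3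
    rw [← hT'c]
    exact final_ineq h4 hMn hk1 hkM (hpT T' (hqT T' hT'.lm))

end Pool.Agent.Helper46.Tet
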