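import Pool.Agent.Helper46.Tet.Cover

/-!
The volume inequality in a plane: the simplices which are flattened into a plane `A` and are opened
by the perturbation `p ↦ p + ε β e` have total volume at most the volume of the prisms of height
`ε` over the facets in `A` of the simplices that were nondegenerate before.
-/

set_option autoImplicit false

namespace Pool.Agent.Helper46.Tet

open Set Filter Topology MeasureTheory

/-- The cross product. -/
def crs (u v : V) : V :=
  ![u 1 * v 2 - u 2 * v 1, u 2 * v 0 - u 0 * v 2, u 0 * v 1 - u 1 * v 0]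

theorem D3_eq (u v w : V) : D3 u v w = crs u v 0 * w 0 + crs u v 1 * w 1 + crs u v 2 * w 2 := by
  simp only [D3, crs, Matrix.cons_val]; ring

/-- The normal of a triangle. -/
def nrm (F : Fin 3 → V) : V := crs (F 1 - F 0) (F 2 - F 0)

/-- The change of `fn F` along `e`. -/
def sl (F : Fin 3 → V) (e : V) : ℝ := D3 (F 1 - F 0) (F 2 - F 0) e

theorem fn_eq (F : Fin 3 → V) (z : V) :
    fn F z = nrm F 0 * z 0 + nrm F 1 * z 1 + nrm F 2 * z 2 -
      (nrm F 0 * F 0 0 + nrm F 1 * F 0 1 + nrm F 2 * F 0 2) := by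
  simp only [fn, nrm, D3, crs, Pi.sub_apply, Matrix.cons_val]; ring

theorem fn_add (F : Fin 3 → V) (y e : V) (s : ℝ) : fn F (y + s • e) = fn F y + s * sl F e := by
  simp only [fn, sl, D3, Pi.sub_apply, Pi.add_apply, Pi.smul_apply, smul_eq_mul]; ring

/-- The plane of a triangle. -/
def pl (F : Fin 3 → V) : Set V := {y | fn F y = 0}

theorem exceptional_null {F G : Fin 3 → V} {e : V} (hF : sl F e ≠ 0) (hG : sl G e ≠ 0)
    (h : pl F ≠ pl G) : volume {z : V | sl F e * fn G z = sl G e * fn F z} = 0 := by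
  set N : V := fun i => sl F e * nrm G i - sl G e * nrm F i with hN
  set c : ℝ := sl F e * (nrm G 0 * G 0 0 + nrm G 1 * G 0 1 + nrm G 2 * G 0 2) -
    sl G e * (nrm F 0 * F 0 0 + nrm F 1 * F 0 1 + nrm F 2 * F 0 2) with hc
  have hset : {z : V | sl F e * fn G z = sl G e * fn F z} =
      {z : V | N 0 * z 0 + N 1 * z 1 + N 2 * z 2 = c} := by
    ext z
    simp only [mem_ofPred_eq, fn_eq, hN, hc]
    constructor
    · intro h; linear_combination h
    · intro h; linear_combination h
  rw [hset]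
  by_cases hN0 : N = 0
  · have hemp : {z : V | N 0 * z 0 + N 1 * z 1 + N 2 * z 2 = c} = ∅ := by
      rw [eq_empty_iff_forall_notMem]
      intro z hz
      apply h
      have hc0 : c = 0 := by
        have : N 0 * z 0 + N 1 * z 1 + N 2 * z 2 = c := hz
        rw [hN0] at this
        simpa using this.symm
      have hall : ∀ y : V, sl F e * fn G y = sl G e * fn F y := by
        intro y
        have : y ∈ {z : V | sl F e * fn G z = sl G e * fn F z} := by
          rw [hset]
          show N 0 * y 0 + N 1 * y 1 + N 2 * y 2 = c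
          rw [hN0, hc0]; simp
        exact this
      ext y
      constructor
      · intro hy
        have hy' : fn F y = 0 := hy
        have := hall y
        rw [hy', mul_zero] at this
        exact (mul_eq_zero.1 this).resolve_left hF
      · intro hy
        have hy' : fn G y = 0 := hy
        have := hall y
        rw [hy', mul_zero] at this
        exact (mul_eq_zero.1 this.symm).resolve_left hG
    rw [hemp]; exact measure_empty
  · exact vol_plane hN0

variable {ι : Type*} [Fintype ι]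

/-- Simplices of a limit of tetrahedralizations are almost disjoint. -/
theorem Lm.aedisjoint {q : ι → V} {T : Finset (Fin 4 → ι)} (h : Lm q T) {s t : Fin 4 → ι}
    (hs : s ∈ T) (ht : t ∈ T) (hst : s ≠ t) :
    volume (cv (q ∘ s) ∩ cv (q ∘ t)) = 0 := by
  by_cases hd : Dt (q ∘ s) = 0
  · exact measure_mono_null inter_subset_left (vol_cv_degenerate hd)
  · have hsub : cv (q ∘ s) ∩ cv (q ∘ t) ⊆ ⋃ v : Fin 4, cv (q ∘ fct s v) := by
      rintro y ⟨h1, h2⟩
      have h3 : y ∉ ocv (q ∘ s) := fun h3 => Set.disjoint_left.1 (h.disj hs ht hst hd) h3 h2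
      obtain ⟨v, hv⟩ := mem_cv_fct h1 h3
      exact mem_iUnion.2 ⟨v, hv⟩
    apply measure_mono_null hsub
    exact measure_iUnion_null fun v => vol_cv_tri _

/-- The total volume of a family. -/
theorem Lm.vol_union {q : ι → V} {T : Finset (Fin 4 → ι)} (h : Lm q T)
    {S : Finset (Fin 4 → ι)} (hS : S ⊆ T) :
    volume (⋃ t ∈ S, cv (q ∘ t)) = ∑ t ∈ S, volume (cv (q ∘ t)) := by
  apply measure_biUnion_finset₀
  · intro s hs t ht hst
    exact h.aedisjoint (hS hs) (hS ht) hst
  · intro t _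
    exact (isClosed_cv _).measurableSet.nullMeasurableSet

open Classical in
/-- The facets lying in the plane `A`. -/
noncomputable def fcts (p : ι → V) (T : Finset (Fin 4 → ι)) (A : Set V) :
    Finset ((Fin 4 → ι) × Fin 4) :=
  ((nds p T) ×ˢ Finset.univ).filter fun x => pl (p ∘ fct x.1 x.2) = A

theorem plane_step {p q : ι → V} {e : V} {ε : ℝ} {β : ι → ℝ} {T : Finset (Fin 4 → ι)}
    {t₀ : Fin 4 → ι} {F : Fin 3 → V} (hε : 0 < ε) (hβ0 : ∀ i, 0 ≤ β i) (hβ1 : ∀ i, β i ≤ 1)
    (hq : ∀ i, q i = p i + (ε * β i) • e) (hp : Lm p T) (hqL : Lm q T)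
    (h₀ : Dt (p ∘ t₀) ≠ 0) (hF : sl F e ≠ 0)
    (gen : ∀ s ∈ nds p T, ∀ v, sl (p ∘ fct s v) e ≠ 0)
    {S : Finset (Fin 4 → ι)} (hS : S ⊆ T) (hSd : ∀ t ∈ S, Dt (p ∘ t) = 0)
    (hSF : ∀ t ∈ S, ∀ i, fn F (p (t i)) = 0) :
    ∑ t ∈ S, volume (cv (q ∘ t)) ≤
      ∑ x ∈ fcts p T (pl F), ENNReal.ofReal (ε * |sl (p ∘ fct x.1 x.2) e|) := by
  classical
  rw [← hqL.vol_union hS]
  have hsub : (⋃ t ∈ S, cv (q ∘ t)) ⊆
      (⋃ x ∈ fcts p T (pl F), prism (p ∘ fct x.1 x.2) e ε) ∪
      (⋃ x ∈ (((nds p T) ×ˢ Finset.univ).filter fun x : (Fin 4 → ι) × Fin 4 =>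
        pl (p ∘ fct x.1 x.2) ≠ pl F),
        {z : V | sl F e * fn (p ∘ fct x.1 x.2) z = sl (p ∘ fct x.1 x.2) e * fn F z}) := by
    intro z hz
    simp only [mem_iUnion] at hz
    obtain ⟨t, ht, w, h0, h1, hz⟩ := hz
    set y : V := ∑ i, w i • (p ∘ t) i with hy
    set s : ℝ := ∑ i, w i * (ε * β (t i)) with hs
    have hzy : z = y + s • e := by
      rw [← hz, hy, hs, Finset.sum_smul, ← Finset.sum_add_distrib]
      apply Finset.sum_congr rfl
      intro i _
      simp only [Function.comp, hq, smul_add, smul_smul]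
    have hs0 : 0 ≤ s := Finset.sum_nonneg fun i _ => mul_nonneg (h0 i) (mul_nonneg hε.le (hβ0 _))
    have hs1 : s ≤ ε := by
      calc s ≤ ∑ i, w i * ε := Finset.sum_le_sum fun i _ =>
            mul_le_mul_of_nonneg_left (by nlinarith [hβ1 (t i)]) (h0 i)
        _ = ε := by rw [← Finset.sum_mul, h1, one_mul]
    have hycv : y ∈ cv (p ∘ t) := ⟨w, h0, h1, rfl⟩
    have hyF : fn F y = 0 := by
      rw [hy, fn_comb F _ h1]
      apply Finset.sum_eq_zero
      intro i _
      rw [Function.comp, hSF t ht i, mul_zero]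
    obtain ⟨s', hs', v, hv⟩ := hp.facet h₀ (hS ht) (hSd t ht) hycv
    by_cases hpl : pl (p ∘ fct s' v) = pl F
    · left
      simp only [mem_iUnion]
      refine ⟨(s', v), ?_, y, hv, s, hs0, hs1, hzy⟩
      unfold fcts
      rw [Finset.mem_filter, Finset.mem_product]
      exact ⟨⟨hs', Finset.mem_univ _⟩, hpl⟩
    · right
      simp only [mem_iUnion]
      refine ⟨(s', v), ?_, ?_⟩
      · rw [Finset.mem_filter, Finset.mem_product]
        exact ⟨⟨hs', Finset.mem_univ _⟩, hpl⟩
      · show sl F e * fn (p ∘ fct s' v) z = sl (p ∘ fct s' v) e * fn F z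
        rw [hzy, fn_add, fn_add, hyF, fn_cv hv]
        ring
  refine (measure_mono hsub).trans ?_
  refine (measure_union_le _ _).trans ?_
  have hnull : volume (⋃ x ∈ (((nds p T) ×ˢ Finset.univ).filter fun x : (Fin 4 → ι) × Fin 4 =>
        pl (p ∘ fct x.1 x.2) ≠ pl F),
        {z : V | sl F e * fn (p ∘ fct x.1 x.2) z = sl (p ∘ fct x.1 x.2) e * fn F z}) = 0 := by
    refine measure_iUnion_null fun x => measure_iUnion_null fun hx => ?_
    rw [Finset.mem_filter, Finset.mem_product] at hx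
    exact exceptional_null hF (gen x.1 hx.1.1 x.2) (Ne.symm hx.2)
  rw [hnull, add_zero]
  refine (measure_biUnion_finset_le _ _).trans ?_
  apply Finset.sum_le_sum
  intro x _
  exact vol_prism_le _ _ hε

end Pool.Agent.Helper46.Tet
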