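import Pool.Agent.Helper46.Tet.Lattice

/-!
Comparison of the integer minors with the physical determinants inside a plane.
-/

set_option autoImplicit false

namespace Pool.Agent.Helper46.Tet

open Set Filter Topology MeasureTheory

variable {ι : Type*}

/-- The positions `p` are a linear image of the first `n` integer coordinates, and have the same
linear dependences. -/
structure Inv (n : ℕ) (X : ι → ℕ → ℤ) (p : ι → V) : Prop where
  fac : ∃ w : ℕ → V, ∀ i, p i = ∑ r ∈ Finset.range n, (X i r : ℝ) • w r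
  inj : Function.Injective p
  re3 : ∀ F : Fin 3 → ι, ∀ r < n, ∀ s < n, m2 X F r s ≠ 0 → nrm (p ∘ F) ≠ 0
  re4 : ∀ t : Fin 4 → ι, ∀ r < n, ∀ s < n, ∀ u < n, m3 X t r s u ≠ 0 → Dt (p ∘ t) ≠ 0

/-- Linear relations between integer coordinates pass to the positions. -/
theorem rel3 {n : ℕ} {X : ι → ℕ → ℤ} {p : ι → V}
    (h : ∃ w : ℕ → V, ∀ i, p i = ∑ r ∈ Finset.range n, (X i r : ℝ) • w r) (a b c d : ι)
    (x y z : ℝ)
    (hr : ∀ r < n, x * ((X b r : ℝ) - X a r) + y * ((X c r : ℝ) - X a r) +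
      z * ((X d r : ℝ) - X a r) = 0) :
    x • (p b - p a) + y • (p c - p a) + z • (p d - p a) = 0 := by
  obtain ⟨w, hw⟩ := h
  simp only [hw, ← Finset.sum_sub_distrib, Finset.smul_sum, ← Finset.sum_add_distrib]
  apply Finset.sum_eq_zero
  intro r hr'
  have h1 := hr r (Finset.mem_range.1 hr')
  have h2 : x • ((X b r : ℝ) • w r - (X a r : ℝ) • w r) + y • ((X c r : ℝ) • w r - (X a r : ℝ) • w r)
      + z • ((X d r : ℝ) • w r - (X a r : ℝ) • w r) =
      (x * ((X b r : ℝ) - X a r) + y * ((X c r : ℝ) - X a r) + z * ((X d r : ℝ) - X a r)) • w r := by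
    module
  rw [h2, h1, zero_smul]

theorem crs_eq_zero_of {u v : V} {x y : ℝ} (h : x • u + y • v = 0) (hxy : x ≠ 0 ∨ y ≠ 0) :
    crs u v = 0 := by
  have h0 := congrFun h 0
  have h1 := congrFun h 1
  have h2 := congrFun h 2
  simp only [Pi.add_apply, Pi.smul_apply, smul_eq_mul, Pi.zero_apply] at h0 h1 h2
  ext j
  rcases hxy with hx | hy
  · apply mul_left_cancel₀ hx
    fin_cases j
    · simp only [crs, Fin.zero_eta, Matrix.cons_val, Pi.zero_apply, mul_zero]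
      linear_combination v 2 * h1 - v 1 * h2
    · simp only [crs, Fin.mk_one, Matrix.cons_val, Pi.zero_apply, mul_zero]
      linear_combination v 0 * h2 - v 2 * h0
    · simp only [crs, Fin.reduceFinMk, Matrix.cons_val, Pi.zero_apply, mul_zero]
      linear_combination v 1 * h0 - v 0 * h1
  · apply mul_left_cancel₀ hy
    fin_cases j
    · simp only [crs, Fin.zero_eta, Matrix.cons_val, Pi.zero_apply, mul_zero]
      linear_combination u 1 * h2 - u 2 * h1
    · simp only [crs, Fin.mk_one, Matrix.cons_val, Pi.zero_apply, mul_zero]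
      linear_combination u 2 * h0 - u 0 * h2
    · simp only [crs, Fin.reduceFinMk, Matrix.cons_val, Pi.zero_apply, mul_zero]
      linear_combination u 0 * h1 - u 1 * h0

/-- `D3` of linear combinations. -/
theorem D3_comb (u v w : V) (a b c a' b' c' a'' b'' c'' : ℝ) :
    D3 (a • u + b • v + c • w) (a' • u + b' • v + c' • w) (a'' • u + b'' • v + c'' • w) =
      (a * (b' * c'' - c' * b'') - b * (a' * c'' - c' * a'') + c * (a' * b'' - b' * a'')) *
        D3 u v w := by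
  simp only [D3, Pi.add_apply, Pi.smul_apply, smul_eq_mul]
  ring

theorem D3_eq_zero_of {u v w : V} {x y z : ℝ} (h : x • u + y • v + z • w = 0)
    (hxyz : x ≠ 0 ∨ y ≠ 0 ∨ z ≠ 0) : D3 u v w = 0 := by
  have h0 := congrFun h 0
  have h1 := congrFun h 1
  have h2 := congrFun h 2
  simp only [Pi.add_apply, Pi.smul_apply, smul_eq_mul, Pi.zero_apply] at h0 h1 h2
  rcases hxyz with hx | hy | hz
  · apply mul_left_cancel₀ hx
    simp only [D3]
    linear_combination (v 1 * w 2 - v 2 * w 1) * h0 - (v 0 * w 2 - v 2 * w 0) * h1 +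
      (v 0 * w 1 - v 1 * w 0) * h2
  · apply mul_left_cancel₀ hy
    simp only [D3]
    linear_combination -(u 1 * w 2 - u 2 * w 1) * h0 + (u 0 * w 2 - u 2 * w 0) * h1 -
      (u 0 * w 1 - u 1 * w 0) * h2
  · apply mul_left_cancel₀ hz
    simp only [D3]
    linear_combination (u 1 * v 2 - u 2 * v 1) * h0 - (u 0 * v 2 - u 2 * v 0) * h1 +
      (u 0 * v 1 - u 1 * v 0) * h2

/-- Noncollinear triangles have a nonzero minor. -/
theorem Inv.dep2 {n : ℕ} {X : ι → ℕ → ℤ} {p : ι → V} (h : Inv n X p) {F : Fin 3 → ι}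
    (hF : nrm (p ∘ F) ≠ 0) : ∃ r < n, ∃ s < n, m2 X F r s ≠ 0 := by
  by_contra hne
  push Not at hne
  apply hF
  by_cases h0 : ∃ r < n, X (F 1) r - X (F 0) r ≠ 0 ∨ X (F 2) r - X (F 0) r ≠ 0
  · obtain ⟨r, hr, h0⟩ := h0
    have h1 := rel3 h.fac (F 0) (F 1) (F 2) (F 0) ((X (F 2) r : ℝ) - X (F 0) r)
      (-((X (F 1) r : ℝ) - X (F 0) r)) 0 (by
        intro s hs
        have h2 := hne r hr s hs
        have h3 : (((X (F 1) r - X (F 0) r) * (X (F 2) s - X (F 0) s) -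
          (X (F 1) s - X (F 0) s) * (X (F 2) r - X (F 0) r) : ℤ) : ℝ) = 0 := by
          exact_mod_cast h2
        push_cast at h3
        linear_combination -h3)
    rw [zero_smul, add_zero] at h1
    apply crs_eq_zero_of h1
    rcases h0 with h0 | h0
    · right
      rw [neg_ne_zero]
      exact_mod_cast h0
    · left
      exact_mod_cast h0
  · push Not at h0
    have h1 := rel3 h.fac (F 0) (F 1) (F 2) (F 0) 1 0 0 (by
      intro s hs
      have := (h0 s hs).1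
      have h3 : ((X (F 1) s - X (F 0) s : ℤ) : ℝ) = 0 := by exact_mod_cast this
      push_cast at h3
      linear_combination h3)
    rw [zero_smul ℝ (p (F 0) - p (F 0)), add_zero] at h1
    exact crs_eq_zero_of h1 (Or.inl one_ne_zero)

/-- Nondegenerate tetrahedra have a nonzero minor. -/
theorem Inv.dep3 {n : ℕ} {X : ι → ℕ → ℤ} {p : ι → V} (h : Inv n X p) {t : Fin 4 → ι}
    (ht : Dt (p ∘ t) ≠ 0) : g3 n X t ≠ 0 := by
  intro hg
  have hne : ∀ r < n, ∀ s < n, ∀ u < n, m3 X t r s u = 0 := by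
    intro r hr s hs u hu
    have := g3_dvd (X := X) (t := t) hr hs hu
    rw [hg] at this
    simpa using this
  have hd12 : nrm (p ∘ fct t 3) ≠ 0 := by
    intro h0
    apply ht
    have e0 : (Fin.succAbove (3 : Fin 4) (0 : Fin 3)) = (0 : Fin 4) := rfl
    have e1 : (Fin.succAbove (3 : Fin 4) (1 : Fin 3)) = (1 : Fin 4) := rfl
    have e2 : (Fin.succAbove (3 : Fin 4) (2 : Fin 3)) = (2 : Fin 4) := rfl
    have h00 : crs (p (t 1) - p (t 0)) (p (t 2) - p (t 0)) = 0 := by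
      have := h0
      simp only [nrm, fct, Function.comp, e0, e1, e2] at this
      exact this
    show D3 (p (t 1) - p (t 0)) (p (t 2) - p (t 0)) (p (t 3) - p (t 0)) = 0
    rw [D3_eq, h00]; simp
  obtain ⟨r, hr, s, hs, hm⟩ := h.dep2 hd12
  apply ht
  show D3 (p (t 1) - p (t 0)) (p (t 2) - p (t 0)) (p (t 3) - p (t 0)) = 0
  have e0 : (Fin.succAbove (3 : Fin 4) (0 : Fin 3)) = (0 : Fin 4) := rfl
  have e1 : (Fin.succAbove (3 : Fin 4) (1 : Fin 3)) = (1 : Fin 4) := rfl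
  have e2 : (Fin.succAbove (3 : Fin 4) (2 : Fin 3)) = (2 : Fin 4) := rfl
  simp only [m2, fct, Function.comp, e0, e1, e2] at hm
  have h1 := rel3 h.fac (t 0) (t 1) (t 2) (t 3)
    (((X (t 2) r : ℝ) - X (t 0) r) * ((X (t 3) s : ℝ) - X (t 0) s) -
      ((X (t 2) s : ℝ) - X (t 0) s) * ((X (t 3) r : ℝ) - X (t 0) r))
    (-(((X (t 1) r : ℝ) - X (t 0) r) * ((X (t 3) s : ℝ) - X (t 0) s) -
      ((X (t 1) s : ℝ) - X (t 0) s) * ((X (t 3) r : ℝ) - X (t 0) r)))
    (((X (t 1) r : ℝ) - X (t 0) r) * ((X (t 2) s : ℝ) - X (t 0) s) -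
      ((X (t 1) s : ℝ) - X (t 0) s) * ((X (t 2) r : ℝ) - X (t 0) r)) (by
      intro u hu
      have h2 := hne r hr s hs u hu
      have h3 : ((m3 X t r s u : ℤ) : ℝ) = 0 := by exact_mod_cast h2
      simp only [m3] at h3
      push_cast at h3
      linear_combination h3)
  apply D3_eq_zero_of h1
  right; right
  exact_mod_cast hm

/-- Planar coordinates. -/
theorem Inv.coords {n : ℕ} {X : ι → ℕ → ℤ} {p : ι → V} (h : Inv n X p) {F : Fin 3 → ι}
    (hF : nrm (p ∘ F) ≠ 0) {i : ι} (hi : fn (p ∘ F) (p i) = 0) :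
    ∃ a b : ℝ, (∀ r < n, (X i r : ℝ) - X (F 0) r =
      a * ((X (F 1) r : ℝ) - X (F 0) r) + b * ((X (F 2) r : ℝ) - X (F 0) r)) ∧
      p i - p (F 0) = a • (p (F 1) - p (F 0)) + b • (p (F 2) - p (F 0)) := by
  obtain ⟨ρ, hρ, σ, hσ, hm⟩ := h.dep2 hF
  have hmr : ((X (F 1) ρ : ℝ) - X (F 0) ρ) * ((X (F 2) σ : ℝ) - X (F 0) σ) -
    ((X (F 1) σ : ℝ) - X (F 0) σ) * ((X (F 2) ρ : ℝ) - X (F 0) ρ) ≠ 0 := by
    have := hm
    simp only [m2] at this
    exact_mod_cast this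
  have hz : ∀ r < n, m3 X ![F 0, F 1, F 2, i] ρ σ r = 0 := by
    intro r hr
    by_contra hne
    apply h.re4 _ ρ hρ σ hσ r hr hne
    exact hi
  set M : ℝ := ((X (F 1) ρ : ℝ) - X (F 0) ρ) * ((X (F 2) σ : ℝ) - X (F 0) σ) -
    ((X (F 1) σ : ℝ) - X (F 0) σ) * ((X (F 2) ρ : ℝ) - X (F 0) ρ) with hM
  set a : ℝ := (((X i ρ : ℝ) - X (F 0) ρ) * ((X (F 2) σ : ℝ) - X (F 0) σ) -
    ((X i σ : ℝ) - X (F 0) σ) * ((X (F 2) ρ : ℝ) - X (F 0) ρ)) / M with ha
  set b : ℝ := (((X (F 1) ρ : ℝ) - X (F 0) ρ) * ((X i σ : ℝ) - X (F 0) σ) -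
    ((X (F 1) σ : ℝ) - X (F 0) σ) * ((X i ρ : ℝ) - X (F 0) ρ)) / M with hb
  have hcoord : ∀ r < n, (X i r : ℝ) - X (F 0) r =
      a * ((X (F 1) r : ℝ) - X (F 0) r) + b * ((X (F 2) r : ℝ) - X (F 0) r) := by
    intro r hr
    have h1 := hz r hr
    have h2 : ((m3 X ![F 0, F 1, F 2, i] ρ σ r : ℤ) : ℝ) = 0 := by exact_mod_cast h1
    simp only [m3, Matrix.cons_val] at h2
    push_cast at h2
    rw [ha, hb, div_mul_eq_mul_div, div_mul_eq_mul_div, ← add_div, eq_div_iff hmr, hM]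
    linear_combination h2
  refine ⟨a, b, hcoord, ?_⟩
  have h3 := rel3 h.fac (F 0) (F 1) (F 2) i a b (-1) (by
    intro r hr
    have := hcoord r hr
    linear_combination -this)
  have h4 : p i - p (F 0) = (a • (p (F 1) - p (F 0)) + b • (p (F 2) - p (F 0)) +
    (-1 : ℝ) • (p i - p (F 0))) + (p i - p (F 0)) := by
    rw [h3, zero_add]
  calc p i - p (F 0) = (a • (p (F 1) - p (F 0)) + b • (p (F 2) - p (F 0)) +
    (-1 : ℝ) • (p i - p (F 0))) + (p i - p (F 0)) := h4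
    _ = _ := by module

/-- Inside the plane of `F`, the physical area of a triangle is proportional to the gcd of its
minors. -/
theorem Inv.scale2 {n : ℕ} {X : ι → ℕ → ℤ} {p : ι → V} (h : Inv n X p) {F : Fin 3 → ι}
    (hF : nrm (p ∘ F) ≠ 0) {G : Fin 3 → ι} (hG : ∀ j, fn (p ∘ F) (p (G j)) = 0) (e : V) :
    |sl (p ∘ G) e| * g2 n X F = |sl (p ∘ F) e| * g2 n X G := by
  obtain ⟨a0, b0, hx0, hp0⟩ := h.coords hF (hG 0)
  obtain ⟨a1, b1, hx1, hp1⟩ := h.coords hF (hG 1)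
  obtain ⟨a2, b2, hx2, hp2⟩ := h.coords hF (hG 2)
  set δ : ℝ := (a1 - a0) * (b2 - b0) - (a2 - a0) * (b1 - b0) with hδ
  have h1 : (g2 n X G : ℝ) = |δ| * g2 n X F := by
    apply gcd_scale
    rintro ⟨r, s⟩ hrs
    simp only [Finset.mem_product, Finset.mem_range] at hrs
    have er0 := hx0 r hrs.1
    have er1 := hx1 r hrs.1
    have er2 := hx2 r hrs.1
    have es0 := hx0 s hrs.2
    have es1 := hx1 s hrs.2
    have es2 := hx2 s hrs.2
    simp only [m2]
    push_cast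
    have e1 : (X (G 1) r : ℝ) - X (G 0) r = (a1 - a0) * ((X (F 1) r : ℝ) - X (F 0) r) +
      (b1 - b0) * ((X (F 2) r : ℝ) - X (F 0) r) := by linear_combination er1 - er0
    have e2 : (X (G 2) r : ℝ) - X (G 0) r = (a2 - a0) * ((X (F 1) r : ℝ) - X (F 0) r) +
      (b2 - b0) * ((X (F 2) r : ℝ) - X (F 0) r) := by linear_combination er2 - er0
    have e3 : (X (G 1) s : ℝ) - X (G 0) s = (a1 - a0) * ((X (F 1) s : ℝ) - X (F 0) s) +
      (b1 - b0) * ((X (F 2) s : ℝ) - X (F 0) s) := by linear_combination es1 - es0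
    have e4 : (X (G 2) s : ℝ) - X (G 0) s = (a2 - a0) * ((X (F 1) s : ℝ) - X (F 0) s) +
      (b2 - b0) * ((X (F 2) s : ℝ) - X (F 0) s) := by linear_combination es2 - es0
    rw [e1, e2, e3, e4, hδ]
    ring
  have h2 : sl (p ∘ G) e = δ * sl (p ∘ F) e := by
    have e1 : p (G 1) - p (G 0) = (a1 - a0) • (p (F 1) - p (F 0)) +
      (b1 - b0) • (p (F 2) - p (F 0)) + (0 : ℝ) • e := by
      have : p (G 1) - p (G 0) = (p (G 1) - p (F 0)) - (p (G 0) - p (F 0)) := by abel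
      rw [this, hp1, hp0]; module
    have e2 : p (G 2) - p (G 0) = (a2 - a0) • (p (F 1) - p (F 0)) +
      (b2 - b0) • (p (F 2) - p (F 0)) + (0 : ℝ) • e := by
      have : p (G 2) - p (G 0) = (p (G 2) - p (F 0)) - (p (G 0) - p (F 0)) := by abel
      rw [this, hp2, hp0]; module
    have e3 : e = (0 : ℝ) • (p (F 1) - p (F 0)) + (0 : ℝ) • (p (F 2) - p (F 0)) + (1 : ℝ) • e := by
      module
    show D3 (p (G 1) - p (G 0)) (p (G 2) - p (G 0)) e = δ * D3 (p (F 1) - p (F 0)) (p (F 2) - p (F 0)) e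
    rw [e1, e2]
    conv_lhs => rw [show D3 ((a1 - a0) • (p (F 1) - p (F 0)) +
      (b1 - b0) • (p (F 2) - p (F 0)) + (0 : ℝ) • e) ((a2 - a0) • (p (F 1) - p (F 0)) +
      (b2 - b0) • (p (F 2) - p (F 0)) + (0 : ℝ) • e) e = D3 ((a1 - a0) • (p (F 1) - p (F 0)) +
      (b1 - b0) • (p (F 2) - p (F 0)) + (0 : ℝ) • e) ((a2 - a0) • (p (F 1) - p (F 0)) +
      (b2 - b0) • (p (F 2) - p (F 0)) + (0 : ℝ) • e) ((0 : ℝ) • (p (F 1) - p (F 0)) +
      (0 : ℝ) • (p (F 2) - p (F 0)) + (1 : ℝ) • e) by rw [← e3]]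
    rw [D3_comb, hδ]
    ring
  rw [h2, h1, abs_mul]
  ring

end Pool.Agent.Helper46.Tet
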