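import Pool.Agent.Helper46.Tet.Scale

/-!
Comparison of the integer minors with the physical determinants of the simplices opened by a
perturbation.
-/

set_option autoImplicit false

namespace Pool.Agent.Helper46.Tet

open Set Filter Topology MeasureTheory

variable {ι : Type*}

/-- The reference family of minors. -/
def rf (n : ℕ) (X : ι → ℕ → ℤ) (F : Fin 3 → ι) (x : ℕ × ℕ × ℕ) : ℤ :=
  let v1 : ℕ → ℤ := fun r => if r = n then 0 else X (F 1) r - X (F 0) r
  let v2 : ℕ → ℤ := fun r => if r = n then 0 else X (F 2) r - X (F 0) r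
  let E : ℕ → ℤ := fun r => if r = n then 1 else 0
  v1 x.1 * (v2 x.2.1 * E x.2.2 - v2 x.2.2 * E x.2.1) -
    v1 x.2.1 * (v2 x.1 * E x.2.2 - v2 x.2.2 * E x.1) +
    v1 x.2.2 * (v2 x.1 * E x.2.1 - v2 x.2.1 * E x.1)

theorem gcd_rf (n : ℕ) (X : ι → ℕ → ℤ) (F : Fin 3 → ι) :
    ((Finset.range (n+1) ×ˢ Finset.range (n+1) ×ˢ Finset.range (n+1)).gcd
      fun x => (rf n X F x).natAbs) = g2 n X F := by
  apply Nat.dvd_antisymm
  · apply dvd_g2
    intro r hr s hs
    have h1 : ((Finset.range (n+1) ×ˢ Finset.range (n+1) ×ˢ Finset.range (n+1)).gcd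
      fun x => (rf n X F x).natAbs) ∣ (rf n X F (r, s, n)).natAbs :=
      Finset.gcd_dvd (f := fun x : ℕ × ℕ × ℕ => (rf n X F x).natAbs)
        (by
          simp only [Finset.mem_product, Finset.mem_range]
          omega : (r, s, n) ∈ _)
    rw [← Int.natCast_dvd] at h1
    have hr' : r ≠ n := by omega
    have hs' : s ≠ n := by omega
    have h2 : rf n X F (r, s, n) = m2 X F r s := by
      simp [rf, m2, hr', hs']
    rw [h2] at h1
    exact h1
  · apply Finset.dvd_gcd
    rintro ⟨r, s, u⟩ hx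
    simp only [Finset.mem_product, Finset.mem_range] at hx
    rw [← Int.natCast_dvd]
    set v1 : ℕ → ℤ := fun r => if r = n then 0 else X (F 1) r - X (F 0) r with hv1
    set v2 : ℕ → ℤ := fun r => if r = n then 0 else X (F 2) r - X (F 0) r with hv2
    have hM : ∀ a b, a < n + 1 → b < n + 1 → (g2 n X F : ℤ) ∣ v1 a * v2 b - v1 b * v2 a := by
      intro a b ha hb
      by_cases ha' : a = n
      · simp [hv1, hv2, ha']
      · by_cases hb' : b = n
        · simp [hv1, hv2, hb']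
        · have := g2_dvd (X := X) (F := F) (by omega : a < n) (by omega : b < n)
          simp only [hv1, hv2, if_neg ha', if_neg hb']
          exact this
    obtain ⟨k1, h1⟩ := hM r s hx.1 hx.2.1
    obtain ⟨k2, h2⟩ := hM r u hx.1 hx.2.2
    obtain ⟨k3, h3⟩ := hM s u hx.2.1 hx.2.2
    refine ⟨k1 * (if u = n then 1 else 0) - k2 * (if s = n then 1 else 0) +
      k3 * (if r = n then 1 else 0), ?_⟩
    show v1 r * (v2 s * (if u = n then 1 else 0) - v2 u * (if s = n then 1 else 0)) -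
      v1 s * (v2 r * (if u = n then 1 else 0) - v2 u * (if r = n then 1 else 0)) +
      v1 u * (v2 r * (if s = n then 1 else 0) - v2 s * (if r = n then 1 else 0)) = _
    linear_combination (if u = n then (1:ℤ) else 0) * h1 - (if s = n then (1:ℤ) else 0) * h2 +
      (if r = n then (1:ℤ) else 0) * h3

/-- Inside the plane of `F`, the physical volume of a perturbed tetrahedron is proportional to the
gcd of its minors. -/
theorem Inv.scale3 {n : ℕ} {X : ι → ℕ → ℤ} {p q : ι → V} (h : Inv n X p) {F : Fin 3 → ι}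
    (hF : nrm (p ∘ F) ≠ 0) {e : V} {ε : ℝ} (hε : 0 < ε) {β : ι → ℝ} {L : ℕ → ℝ}
    (hq : ∀ i, q i = p i + (ε * β i) • e)
    (hβ : ∀ i, β i = (∑ r ∈ Finset.range n, L r * X i r) - X i n)
    {t : Fin 4 → ι} (ht : ∀ j, fn (p ∘ F) (p (t j)) = 0) :
    |Dt (q ∘ t)| * g2 n X F = ε * |sl (p ∘ F) e| * g3 (n + 1) X t := by
  have hco : ∀ j, ∃ a b : ℝ, (∀ r < n, (X (t j) r : ℝ) - X (F 0) r =
      a * ((X (F 1) r : ℝ) - X (F 0) r) + b * ((X (F 2) r : ℝ) - X (F 0) r)) ∧
      p (t j) - p (F 0) = a • (p (F 1) - p (F 0)) + b • (p (F 2) - p (F 0)) :=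
    fun j => h.coords hF (ht j)
  choose a b hx hp using hco
  set κ : Fin 4 → ℝ := fun j => (X (t j) n : ℝ) - X (t 0) n with hκ
  set η : ℝ := (a 1 - a 0) * ((b 2 - b 0) * κ 3 - κ 2 * (b 3 - b 0)) -
    (b 1 - b 0) * ((a 2 - a 0) * κ 3 - κ 2 * (a 3 - a 0)) +
    κ 1 * ((a 2 - a 0) * (b 3 - b 0) - (b 2 - b 0) * (a 3 - a 0)) with hη
  have h1 : (g3 (n + 1) X t : ℝ) = |η| * g2 n X F := by
    rw [← gcd_rf n X F]
    apply gcd_scale
    rintro ⟨r, s, u⟩ hrs
    simp only [Finset.mem_product, Finset.mem_range] at hrs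
    have key : ∀ j, ∀ r < n + 1, (X (t j) r : ℝ) - X (t 0) r =
        (a j - a 0) * ((if r = n then 0 else X (F 1) r - X (F 0) r : ℤ) : ℝ) +
        (b j - b 0) * ((if r = n then 0 else X (F 2) r - X (F 0) r : ℤ) : ℝ) +
        κ j * ((if r = n then 1 else 0 : ℤ) : ℝ) := by
      intro j r hr
      by_cases hrn : r = n
      · rw [if_pos hrn, if_pos hrn, if_pos hrn, hrn]
        simp [hκ]
      · rw [if_neg hrn, if_neg hrn, if_neg hrn]
        have e1 := hx j r (by omega)
        have e2 := hx 0 r (by omega)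
        push_cast
        linear_combination e1 - e2
    simp only [m3, rf]
    push_cast
    have kr := fun j => key j r hrs.1
    have ks := fun j => key j s hrs.2.1
    have ku := fun j => key j u hrs.2.2
    push_cast at kr ks ku
    rw [kr 1, kr 2, kr 3, ks 1, ks 2, ks 3, ku 1, ku 2, ku 3, hη]
    ring
  set l1 : ℝ := ∑ r ∈ Finset.range n, L r * ((X (F 1) r : ℝ) - X (F 0) r) with hl1
  set l2 : ℝ := ∑ r ∈ Finset.range n, L r * ((X (F 2) r : ℝ) - X (F 0) r) with hl2
  have hβd : ∀ j, β (t j) - β (t 0) = (a j - a 0) * l1 + (b j - b 0) * l2 - κ j := by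
    intro j
    rw [hβ, hβ, hl1, hl2, Finset.mul_sum, Finset.mul_sum, ← Finset.sum_add_distrib]
    have : ∑ r ∈ Finset.range n, ((a j - a 0) * (L r * ((X (F 1) r : ℝ) - X (F 0) r)) +
        (b j - b 0) * (L r * ((X (F 2) r : ℝ) - X (F 0) r))) =
        (∑ r ∈ Finset.range n, L r * X (t j) r) - ∑ r ∈ Finset.range n, L r * X (t 0) r := by
      rw [← Finset.sum_sub_distrib]
      apply Finset.sum_congr rfl
      intro r hr
      have e1 := hx j r (Finset.mem_range.1 hr)
      have e2 := hx 0 r (Finset.mem_range.1 hr)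
      linear_combination L r * (e2 - e1)
    rw [this, hκ]
    ring
  have hU : ∀ j, q (t j) - q (t 0) =
      (a j - a 0) • ((p (F 1) - p (F 0)) + (ε * l1) • e) +
      (b j - b 0) • ((p (F 2) - p (F 0)) + (ε * l2) • e) + (-(ε * κ j)) • e := by
    intro j
    have e1 : q (t j) - q (t 0) = (p (t j) - p (F 0)) - (p (t 0) - p (F 0)) +
        (ε * (β (t j) - β (t 0))) • e := by
      rw [hq, hq]; module
    rw [e1, hp j, hp 0, hβd j]
    module
  have h2 : Dt (q ∘ t) = -(ε * η) * sl (p ∘ F) e := by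
    show D3 (q (t 1) - q (t 0)) (q (t 2) - q (t 0)) (q (t 3) - q (t 0)) = _
    rw [hU 1, hU 2, hU 3, D3_comb]
    have h3 : D3 ((p (F 1) - p (F 0)) + (ε * l1) • e) ((p (F 2) - p (F 0)) + (ε * l2) • e) e =
        sl (p ∘ F) e := by
      simp only [sl, D3, Function.comp, Pi.add_apply, Pi.sub_apply, Pi.smul_apply, smul_eq_mul]
      ring
    rw [h3, hη]
    ring
  rw [h2, h1, abs_mul, abs_neg, abs_mul, abs_of_pos hε]
  ring

end Pool.Agent.Helper46.Tet
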