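import Pool.Agent.Helper46.Tet.Scale3

/-!
One level of the perturbation multiplies the total normalized volume by at most `109`.
-/

set_option autoImplicit false

namespace Pool.Agent.Helper46.Tet

open Set Filter Topology MeasureTheory

section
variable {ι : Type*}

theorem fn_self (F : Fin 3 → V) (j : Fin 3) : fn F (F j) = 0 := by
  fin_cases j <;>
  · simp only [fn, D3, Pi.sub_apply, Fin.zero_eta, Fin.mk_one, Fin.reduceFinMk]
    ring

theorem fn_fct_iff (p : ι → V) (s : Fin 4 → ι) (v : Fin 4) :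
    fn (p ∘ fct s v) (p (s v)) = 0 ↔ Dt (p ∘ s) = 0 := by
  fin_cases v
  · have e0 : (Fin.succAbove (0 : Fin 4) (0 : Fin 3)) = (1 : Fin 4) := rfl
    have e1 : (Fin.succAbove (0 : Fin 4) (1 : Fin 3)) = (2 : Fin 4) := rfl
    have e2 : (Fin.succAbove (0 : Fin 4) (2 : Fin 3)) = (3 : Fin 4) := rfl
    have h : fn (p ∘ fct s 0) (p (s 0)) = -Dt (p ∘ s) := by
      simp only [fn, Dt, D3, fct, Function.comp, e0, e1, e2, Pi.sub_apply]
      ring
    show fn (p ∘ fct s 0) (p (s 0)) = 0 ↔ _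
    rw [h, neg_eq_zero]
  · have e0 : (Fin.succAbove (1 : Fin 4) (0 : Fin 3)) = (0 : Fin 4) := rfl
    have e1 : (Fin.succAbove (1 : Fin 4) (1 : Fin 3)) = (2 : Fin 4) := rfl
    have e2 : (Fin.succAbove (1 : Fin 4) (2 : Fin 3)) = (3 : Fin 4) := rfl
    have h : fn (p ∘ fct s 1) (p (s 1)) = Dt (p ∘ s) := by
      simp only [fn, Dt, D3, fct, Function.comp, e0, e1, e2, Pi.sub_apply]
      ring
    show fn (p ∘ fct s 1) (p (s 1)) = 0 ↔ _
    rw [h]
  · have e0 : (Fin.succAbove (2 : Fin 4) (0 : Fin 3)) = (0 : Fin 4) := rfl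
    have e1 : (Fin.succAbove (2 : Fin 4) (1 : Fin 3)) = (1 : Fin 4) := rfl
    have e2 : (Fin.succAbove (2 : Fin 4) (2 : Fin 3)) = (3 : Fin 4) := rfl
    have h : fn (p ∘ fct s 2) (p (s 2)) = -Dt (p ∘ s) := by
      simp only [fn, Dt, D3, fct, Function.comp, e0, e1, e2, Pi.sub_apply]
      ring
    show fn (p ∘ fct s 2) (p (s 2)) = 0 ↔ _
    rw [h, neg_eq_zero]
  · have e0 : (Fin.succAbove (3 : Fin 4) (0 : Fin 3)) = (0 : Fin 4) := rfl
    have e1 : (Fin.succAbove (3 : Fin 4) (1 : Fin 3)) = (1 : Fin 4) := rfl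
    have e2 : (Fin.succAbove (3 : Fin 4) (2 : Fin 3)) = (2 : Fin 4) := rfl
    have h : fn (p ∘ fct s 3) (p (s 3)) = Dt (p ∘ s) := by
      simp only [fn, Dt, D3, fct, Function.comp, e0, e1, e2, Pi.sub_apply]
    show fn (p ∘ fct s 3) (p (s 3)) = 0 ↔ _
    rw [h]

theorem nrm_fct_ne {p : ι → V} {s : Fin 4 → ι} (h : Dt (p ∘ s) ≠ 0) (v : Fin 4) :
    nrm (p ∘ fct s v) ≠ 0 := by
  intro h0
  apply h
  rw [← fn_fct_iff p s v, fn_eq, h0]
  simp

/-- All vertices of a degenerate tetrahedron lie in the planes of its facets. -/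
theorem fn_fct_all {p : ι → V} {t : Fin 4 → ι} (h : Dt (p ∘ t) = 0) (v i : Fin 4) :
    fn (p ∘ fct t v) (p (t i)) = 0 := by
  by_cases hi : i = v
  · rw [hi]; exact (fn_fct_iff p t v).2 h
  · obtain ⟨j, rfl⟩ := Fin.exists_succAbove_eq hi
    exact fn_self (p ∘ fct t v) j

theorem exists_facet {n : ℕ} {X : ι → ℕ → ℤ} {p : ι → V} (h : Inv n X p) {t : Fin 4 → ι}
    (hd : Dt (p ∘ t) = 0) (hg : g3 (n + 1) X t ≠ 0) : ∃ v, nrm (p ∘ fct t v) ≠ 0 := by
  have hz : ∀ r < n, ∀ s < n, ∀ u < n, m3 X t r s u = 0 := by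
    intro r hr s hs u hu
    by_contra hne
    exact h.re4 t r hr s hs u hu hne hd
  obtain ⟨r, hr, s, hs, u, hu, hm⟩ := exists_of_g3_ne_zero hg
  have key : ∃ r < n, ∃ s < n, m3 X t r s n ≠ 0 := by
    by_cases hun : u = n
    · subst hun
      have hrn : r ≠ u := by
        rintro rfl
        apply hm; simp only [m3]; ring
      have hsn : s ≠ u := by
        rintro rfl
        apply hm; simp only [m3]; ring
      exact ⟨r, by omega, s, by omega, hm⟩
    · by_cases hsn : s = n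
      · subst hsn
        have hrn : r ≠ s := by
          rintro rfl
          apply hm; simp only [m3]; ring
        refine ⟨r, by omega, u, by omega, ?_⟩
        intro h0
        apply hm
        have : m3 X t r s u = - m3 X t r u s := by simp only [m3]; ring
        rw [this, h0, neg_zero]
      · by_cases hrn : r = n
        · subst hrn
          refine ⟨s, by omega, u, by omega, ?_⟩
          intro h0
          apply hm
          have : m3 X t r s u = m3 X t s u r := by simp only [m3]; ring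
          rw [this, h0]
        · exact absurd (hz r (by omega) s (by omega) u (by omega)) hm
  obtain ⟨r, hr, s, hs, hm⟩ := key
  have hexp : m3 X t r s n = (X (t 3) n - X (t 0) n) * m2 X (fct t 3) r s -
      (X (t 2) n - X (t 0) n) * m2 X (fct t 2) r s +
      (X (t 1) n - X (t 0) n) * m2 X (fct t 1) r s := by
    have e10 : (Fin.succAbove (1 : Fin 4) (0 : Fin 3)) = (0 : Fin 4) := rfl
    have e11 : (Fin.succAbove (1 : Fin 4) (1 : Fin 3)) = (2 : Fin 4) := rfl
    have e12 : (Fin.succAbove (1 : Fin 4) (2 : Fin 3)) = (3 : Fin 4) := rfl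
    have e20 : (Fin.succAbove (2 : Fin 4) (0 : Fin 3)) = (0 : Fin 4) := rfl
    have e21 : (Fin.succAbove (2 : Fin 4) (1 : Fin 3)) = (1 : Fin 4) := rfl
    have e22 : (Fin.succAbove (2 : Fin 4) (2 : Fin 3)) = (3 : Fin 4) := rfl
    have e30 : (Fin.succAbove (3 : Fin 4) (0 : Fin 3)) = (0 : Fin 4) := rfl
    have e31 : (Fin.succAbove (3 : Fin 4) (1 : Fin 3)) = (1 : Fin 4) := rfl
    have e32 : (Fin.succAbove (3 : Fin 4) (2 : Fin 3)) = (2 : Fin 4) := rfl
    simp only [m3, m2, fct, Function.comp, e10, e11, e12, e20, e21, e22, e30, e31, e32]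
    ring
  by_contra hne
  push Not at hne
  have h2 : ∀ v, m2 X (fct t v) r s = 0 := by
    intro v
    by_contra h3
    exact h.re3 _ r hr s hs h3 (hne v)
  apply hm
  rw [hexp, h2, h2, h2]
  ring

end

variable {ι : Type*} [Fintype ι]

theorem step_sum {n : ℕ} {X : ι → ℕ → ℤ} {p q : ι → V} (h : Inv n X p) {e : V} {ε : ℝ}
    (hε : 0 < ε) {β : ι → ℝ} {L : ℕ → ℝ} (hβ0 : ∀ i, 0 ≤ β i) (hβ1 : ∀ i, β i ≤ 1)
    (hq : ∀ i, q i = p i + (ε * β i) • e)
    (hβ : ∀ i, β i = (∑ r ∈ Finset.range n, L r * X i r) - X i n)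
    {T : Finset (Fin 4 → ι)} (hp : Lm p T) (hqL : Lm q T) {t₀ : Fin 4 → ι}
    (h₀ : Dt (p ∘ t₀) ≠ 0) (gen : ∀ F : Fin 3 → ι, nrm (p ∘ F) ≠ 0 → sl (p ∘ F) e ≠ 0) :
    ∑ t ∈ T, g3 (n + 1) X t ≤ 109 * ∑ t ∈ T, g3 n X t := by
  classical
  -- the newly opened simplices
  set T0 : Finset (Fin 4 → ι) := T.filter fun t => Dt (p ∘ t) = 0 ∧ g3 (n + 1) X t ≠ 0 with hT0
  have hT0' : ∀ t ∈ T0, t ∈ T ∧ Dt (p ∘ t) = 0 ∧ g3 (n + 1) X t ≠ 0 := by
    intro t ht
    rw [hT0, Finset.mem_filter] at ht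
    exact ht
  have hex : ∀ t : Fin 4 → ι, ∃ v : Fin 4, t ∈ T0 → nrm (p ∘ fct t v) ≠ 0 := by
    intro t
    by_cases ht : t ∈ T0
    · obtain ⟨v, hv⟩ := exists_facet h (hT0' t ht).2.1 (hT0' t ht).2.2
      exact ⟨v, fun _ => hv⟩
    · exact ⟨0, fun h => absurd h ht⟩
  choose v hv using hex
  set key : (Fin 4 → ι) → Set V := fun t => pl (p ∘ fct t (v t)) with hkey
  set P : Finset ((Fin 4 → ι) × Fin 4) := (nds p T) ×ˢ Finset.univ with hP
  -- the inequality in one plane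
  have hplane : ∀ A ∈ T0.image key, ∑ t ∈ T0.filter (fun t => key t = A), g3 (n + 1) X t ≤
      27 * ∑ x ∈ P.filter (fun x => pl (p ∘ fct x.1 x.2) = A), g2 n X (fct x.1 x.2) := by
    intro A hA
    obtain ⟨t₁, ht₁, rfl⟩ := Finset.mem_image.1 hA
    set F : Fin 3 → ι := fct t₁ (v t₁) with hFdef
    have hF : nrm (p ∘ F) ≠ 0 := hv t₁ ht₁
    have hslF : sl (p ∘ F) e ≠ 0 := gen F hF
    have hg2F : (0 : ℝ) < g2 n X F := by
      obtain ⟨r, hr, s, hs, hm⟩ := h.dep2 hF
      exact_mod_cast Nat.pos_of_ne_zero (g2_ne_zero_of hr hs hm)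
    have hSmem : ∀ t ∈ T0.filter (fun t => key t = key t₁),
        ∀ i, fn (p ∘ F) (p (t i)) = 0 := by
      intro t ht i
      rw [Finset.mem_filter] at ht
      have h1 : p (t i) ∈ pl (p ∘ fct t (v t)) := fn_fct_all (hT0' t ht.1).2.1 _ _
      have h2 : pl (p ∘ fct t (v t)) = pl (p ∘ F) := ht.2
      rw [h2] at h1
      exact h1
    have hstep := plane_step (F := p ∘ F) hε hβ0 hβ1 hq hp hqL h₀ hslF
      (fun s hs w => gen _ (nrm_fct_ne (mem_nds.1 hs).2 w))
      (S := T0.filter (fun t => key t = key t₁))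
      (fun t ht => (hT0' t (Finset.mem_filter.1 ht).1).1)
      (fun t ht => (hT0' t (Finset.mem_filter.1 ht).1).2.1) hSmem
    have hfc : fcts p T (pl (p ∘ F)) = P.filter (fun x => pl (p ∘ fct x.1 x.2) = key t₁) := by
      unfold fcts
      rfl
    rw [hfc] at hstep
    have hreal : ∑ t ∈ T0.filter (fun t => key t = key t₁), |Dt (q ∘ t)| / 27 ≤
        ∑ x ∈ P.filter (fun x => pl (p ∘ fct x.1 x.2) = key t₁),
          ε * |sl (p ∘ fct x.1 x.2) e| := by
      have h1 : ENNReal.ofReal (∑ t ∈ T0.filter (fun t => key t = key t₁), |Dt (q ∘ t)| / 27) ≤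
          ENNReal.ofReal (∑ x ∈ P.filter (fun x => pl (p ∘ fct x.1 x.2) = key t₁),
          ε * |sl (p ∘ fct x.1 x.2) e|) := by
        rw [ENNReal.ofReal_sum_of_nonneg (fun t _ => by positivity),
          ENNReal.ofReal_sum_of_nonneg (fun t _ => by positivity)]
        exact (Finset.sum_le_sum fun t _ => vol_cv_ge _).trans hstep
      rwa [ENNReal.ofReal_le_ofReal_iff (Finset.sum_nonneg fun t _ => by positivity)] at h1
    have h1 : (∑ t ∈ T0.filter (fun t => key t = key t₁), |Dt (q ∘ t)| / 27) * g2 n X F =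
        ε * |sl (p ∘ F) e| * ((∑ t ∈ T0.filter (fun t => key t = key t₁),
          (g3 (n + 1) X t : ℝ)) / 27) := by
      rw [Finset.sum_mul, Finset.sum_div, Finset.mul_sum]
      apply Finset.sum_congr rfl
      intro t ht
      have := h.scale3 hF hε hq hβ (hSmem t ht)
      linear_combination this / 27
    have h2 : (∑ x ∈ P.filter (fun x => pl (p ∘ fct x.1 x.2) = key t₁),
          ε * |sl (p ∘ fct x.1 x.2) e|) * g2 n X F =
        ε * |sl (p ∘ F) e| * (∑ x ∈ P.filter (fun x => pl (p ∘ fct x.1 x.2) = key t₁),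
          (g2 n X (fct x.1 x.2) : ℝ)) := by
      rw [Finset.sum_mul, Finset.mul_sum]
      apply Finset.sum_congr rfl
      intro x hx
      rw [Finset.mem_filter] at hx
      have hG : ∀ j, fn (p ∘ F) (p (fct x.1 x.2 j)) = 0 := by
        intro j
        have h1 : p (fct x.1 x.2 j) ∈ pl (p ∘ fct x.1 x.2) := fn_self (p ∘ fct x.1 x.2) j
        have h2 : pl (p ∘ fct x.1 x.2) = pl (p ∘ F) := hx.2
        rw [h2] at h1
        exact h1
      have := h.scale2 hF hG e
      linear_combination ε * this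
    have h3 := mul_le_mul_of_nonneg_right hreal hg2F.le
    rw [h1, h2] at h3
    have hpos : 0 < ε * |sl (p ∘ F) e| := mul_pos hε (abs_pos.2 hslF)
    have h4 := le_of_mul_le_mul_left h3 hpos
    have h5 : (∑ t ∈ T0.filter (fun t => key t = key t₁), (g3 (n + 1) X t : ℝ)) ≤
        27 * ∑ x ∈ P.filter (fun x => pl (p ∘ fct x.1 x.2) = key t₁),
          (g2 n X (fct x.1 x.2) : ℝ) := by linarith
    exact_mod_cast h5
  -- summation over the planes
  have hsumT0 : ∑ t ∈ T0, g3 (n + 1) X t ≤ 27 * ∑ x ∈ P, g2 n X (fct x.1 x.2) := by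
    calc ∑ t ∈ T0, g3 (n + 1) X t
        = ∑ A ∈ T0.image key, ∑ t ∈ T0.filter (fun t => key t = A), g3 (n + 1) X t :=
          (Finset.sum_fiberwise_of_maps_to (fun t ht => Finset.mem_image_of_mem key ht) _).symm
      _ ≤ ∑ A ∈ T0.image key, 27 * ∑ x ∈ P.filter (fun x => pl (p ∘ fct x.1 x.2) = A),
            g2 n X (fct x.1 x.2) := Finset.sum_le_sum hplane
      _ = 27 * ∑ x ∈ P, ∑ A ∈ T0.image key,
            (if pl (p ∘ fct x.1 x.2) = A then g2 n X (fct x.1 x.2) else 0) := by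
          rw [← Finset.mul_sum, Finset.sum_comm]
          congr 1
          apply Finset.sum_congr rfl
          intro A _
          rw [Finset.sum_filter]
      _ ≤ 27 * ∑ x ∈ P, g2 n X (fct x.1 x.2) := by
          apply Nat.mul_le_mul_left
          apply Finset.sum_le_sum
          intro x _
          rw [Finset.sum_ite_eq]
          split_ifs
          · exact le_refl _
          · exact Nat.zero_le _
  have hP2 : ∑ x ∈ P, g2 n X (fct x.1 x.2) ≤ 4 * ∑ s ∈ nds p T, g3 n X s := by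
    rw [hP, Finset.sum_product, Finset.mul_sum]
    apply Finset.sum_le_sum
    intro s hs
    have hs' := h.dep3 (mem_nds.1 hs).2
    calc ∑ w : Fin 4, g2 n X (fct s w) ≤ ∑ _w : Fin 4, g3 n X s :=
          Finset.sum_le_sum fun w _ => Nat.le_of_dvd (Nat.pos_of_ne_zero hs') (g2_dvd_g3 n X s w)
      _ = 4 * g3 n X s := by simp
  -- splitting
  have hsplit : ∑ t ∈ T, g3 (n + 1) X t =
      ∑ t ∈ nds p T, g3 (n + 1) X t + ∑ t ∈ T0, g3 (n + 1) X t := by
    rw [← Finset.sum_filter_add_sum_filter_not T (fun t => Dt (p ∘ t) ≠ 0)]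
    congr 1
    rw [hT0]
    symm
    apply Finset.sum_subset
    · intro t ht
      rw [Finset.mem_filter] at ht ⊢
      exact ⟨ht.1, fun hc => hc ht.2.1⟩
    · intro t ht ht'
      rw [Finset.mem_filter] at ht ht'
      by_contra hne
      apply ht'
      refine ⟨ht.1, ?_, hne⟩
      by_contra hc
      exact ht.2 hc
  have hold : ∑ t ∈ nds p T, g3 (n + 1) X t ≤ ∑ t ∈ nds p T, g3 n X t := by
    apply Finset.sum_le_sum
    intro t ht
    exact Nat.le_of_dvd (Nat.pos_of_ne_zero (h.dep3 (mem_nds.1 ht).2)) (g3_succ_dvd n X t)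
  have hndsT : ∑ t ∈ nds p T, g3 n X t ≤ ∑ t ∈ T, g3 n X t :=
    Finset.sum_le_sum_of_subset (fun t ht => (mem_nds.1 ht).1)
  rw [hsplit]
  omega

end Pool.Agent.Helper46.Tet
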